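import Pool.Agent.Lib.MP_688fd0_co.SQ5.H53.RegC
import Pool.Agent.Lib.MP_688fd0_co.SQ5.H76.RunB

/-!
MP_688fd0_co, type C2, case FAR-3 (helper53), row REGCONN for 76's main group: the event between the run `z` and the run `z'`,
`z + 1 = z' + x * Et`. `dle g z = -1` at an a-event, `+1` at a b-event.
-/

set_option autoImplicit false

namespace Pool.Agent.Lib.MP_688fd0_co.SQ5.H53.RegC

open Pool.Agent.Lib.MP_688fd0_co.OSF Pool.Agent.Lib.MP_688fd0_co.SQ5.H95 Pool.Agent.Lib.MP_688fd0_co.SQ5.H76 Bd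

universe u v

variable {L : AddSubgroup (ℤ × ℤ)} {M R : ℕ} {dc : ℕ → ℤ} {spc : ℕ → Prop} {G : ℤ} (g : Geo L M R dc spc G)

/-- The change of the labels at the event `z`. -/
def dle (z : ℤ) : ℤ := if (g.w.e z - 3 * z) % 8 = 2 then -1 else 1

theorem dle_cases (z : ℤ) : dle g z = -1 ∨ dle g z = 1 := by
  unfold dle
  split_ifs
  · exact Or.inl rfl
  · exact Or.inr rfl

theorem e_per (x k : ℤ) : g.w.e (k + x * g.w.Et) = g.w.e k + x * (g.i0 + g.j0) := by
  have key : ∀ n : ℕ, ∀ k, g.w.e (k + n * g.w.Et) = g.w.e k + n * (g.i0 + g.j0) := by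
    intro n
    induction n with
    | zero => intro s; simp
    | succ n ih =>
      intro k
      have e : k + ((n + 1 : ℕ) : ℤ) * g.w.Et = k + n * g.w.Et + g.w.Et := by push_cast; ring
      rw [e, g.w.eEt, ih]
      push_cast
      ring
  obtain ⟨n, rfl | rfl⟩ := x.eq_nat_or_neg
  · exact key n k
  · have h3 := key n (k + -(n : ℤ) * g.w.Et)
    have e : k + -(n : ℤ) * g.w.Et + n * g.w.Et = k := by ring
    rw [e] at h3
    linarith

theorem rs_succ (z : ℤ) : g.rs (z + 1) = g.rs z + (g.rE z + 1) := by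
  have h1 := g.rs_add z
  have h2 : g.rs (z + 1) = g.w.e z + 1 := by unfold Geo.rs; rw [add_sub_cancel_right]
  rw [h2]
  linarith

theorem rs_per (x z : ℤ) : g.rs (z + x * g.w.Et) = g.rs z + x * (g.i0 + g.j0) := by
  unfold Geo.rs
  have e : z + x * g.w.Et - 1 = z - 1 + x * g.w.Et := by ring
  rw [e, e_per]
  ring

theorem rp_per (x z : ℤ) : g.rp (z + x * g.w.Et) % 8 = g.rp z % 8 := by
  unfold Geo.rp
  rw [rs_per]
  have h := g.w.l0Et
  have e : g.rs z + x * (g.i0 + g.j0) - 3 * (z + x * g.w.Et) = g.rs z - 3 * z + x * (g.i0 + g.j0 - 3 * g.w.Et) := by ring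
  rw [e]
  obtain ⟨k, hk⟩ := Int.dvd_of_emod_eq_zero h
  rw [hk]
  have e2 : g.rs z - 3 * z + x * (8 * k) = g.rs z - 3 * z + 8 * (x * k) := by ring
  rw [e2]
  omega

theorem rE_per (x z : ℤ) : g.rE (z + x * g.w.Et) = g.rE z := by
  have h1 := g.rE_eq z
  have h2 := g.rE_eq (z + x * g.w.Et)
  have e : z + x * g.w.Et - 1 = z - 1 + x * g.w.Et := by ring
  rw [e, e_per, e_per] at h2
  have : (g.rE (z + x * g.w.Et) : ℤ) = g.rE z := by rw [h1, h2]; ring
  exact_mod_cast this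

variable {g} {m0 : ℕ} {hw : ℤ → ℕ} (H : Geo.Mn g m0 hw)

/-- The sites of the wall in the pattern. -/
theorem C_bd (z K : ℤ) {m : ℕ} (hm : m ≤ g.rE z + 1) :
    (H.bd z).I.C K (g.rs z + m) = g.pat.toPat.C 0 (g.rs z + m) + 2 * isum hw 0 K := by
  have h := (H.fit z).C' 0 m (le_refl _) (Int.natCast_nonneg _) hm
  rw [C_nn (H.bd z) K, ← h]
  rfl

/-- THE EVENT. -/
theorem evt {z z' x : ℤ} (hz : z + 1 = z' + x * g.w.Et) :
    Evt L (H.bd z) (H.bd z') (g.rs z) (g.rs z') (g.rE z) (dle g z) := by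
  have hrs : g.rs z + (g.rE z + 1) = g.rs z' + x * (g.i0 + g.j0) := by rw [← rs_succ, hz, rs_per]
  have hph : g.rp z' % 8 = (g.rp z + (g.rE z + 1) - 3) % 8 := by
    rw [← rp_per g x z', ← hz]
    unfold Geo.rp
    rw [rs_succ]
    congr 1
    ring
  have hcs : (H.bd z').cs (g.rs z') = (H.bd z).cs (g.rs z + (g.rE z + 1)) + dle g z := by
    show H76.col (g.rp z' + (g.rs z' - g.rs z')) = H76.col (g.rp z + (g.rs z + (g.rE z + 1) - g.rs z)) + dle g z
    have e1 : g.rp z' + (g.rs z' - g.rs z') = g.rp z' := by ring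
    have e2 : g.rp z + (g.rs z + (g.rE z + 1) - g.rs z) = g.rp z + g.rE z + 1 := by ring
    have e3 : g.w.e z - 3 * z = g.rp z + g.rE z := by
      unfold Geo.rp
      rw [← g.rs_add z]
      ring
    have hph' : g.rp z' % 8 = (g.rp z + g.rE z - 2) % 8 := by
      rw [hph]
      congr 1
      ring
    rw [e1, e2]
    have hp := g.w.ph z
    unfold dle
    rw [e3] at hp ⊢
    generalize g.rp z + (g.rE z : ℤ) = y at hp hph' ⊢
    rcases hp with hp | hp
    · rw [if_pos hp]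
      have h5 : (y + 1) % 8 = 3 := by omega
      have h6 : g.rp z' % 8 = 0 := by omega
      unfold H76.col
      simp [h5, h6]
    · rw [if_neg (by omega)]
      have h5 : (y + 1) % 8 = 7 := by omega
      have h6 : g.rp z' % 8 = 4 := by omega
      unfold H76.col
      simp [h5, h6]
  refine ⟨rfl, hcs, fun κ => ?_⟩
  rw [st_zero_lv, st_zero_lv, hcs]
  have e : κ + dle g z - ((H.bd z).cs (g.rs z + (g.rE z + 1)) + dle g z) = κ - (H.bd z).cs (g.rs z + (g.rE z + 1)) := by ring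
  rw [e]
  generalize κ - (H.bd z).cs (g.rs z + (g.rE z + 1)) = K
  have h1 := C_bd H z K (m := g.rE z + 1) (le_refl _)
  have h2 := C_bd H z' K (m := 0) (Nat.zero_le _)
  rw [Nat.cast_zero, add_zero] at h2
  push_cast at h1
  rw [h1, h2, hrs]
  have hI := g.inv0.mul x
  have h3 := hI.C 0 (g.rs z')
  have e3 : (0 : ℤ) + x * 0 = 0 := by ring
  have e4 : g.rs z' + (x * g.i0 + x * g.j0) = g.rs z' + x * (g.i0 + g.j0) := by ring
  rw [e3, e4] at h3
  rw [h3]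
  have e5 : Pat.lv (g.rs z' + x * (g.i0 + g.j0)) (g.pat.toPat.C 0 (g.rs z') + (x * g.i0 - x * g.j0) + 2 * isum hw 0 K) =
      Pat.lv (g.rs z' + (x * g.i0 + x * g.j0)) (g.pat.toPat.C 0 (g.rs z') + 2 * isum hw 0 K + (x * g.i0 - x * g.j0)) := by
    congr 1 <;> ring
  rw [e5, Pat.lv_tr]
  refine ⟨rfl, ?_⟩
  generalize Pat.lv (g.rs z') (g.pat.toPat.C 0 (g.rs z') + 2 * isum hw 0 K) = v
  have e6 : (((v.2.1 + x * g.i0, v.2.2 + x * g.j0) : ℤ × ℤ)) - v.2 = x • (g.i0, g.j0) := by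
    refine Prod.ext ?_ ?_
    · show _ - _ = x • g.i0
      simp
    · show _ - _ = x • g.j0
      simp
  rw [show ((v.1, v.2.1 + x * g.i0, v.2.2 + x * g.j0) : V).2 = (v.2.1 + x * g.i0, v.2.2 + x * g.j0) from rfl, e6]
  exact L.zsmul_mem g.in0 x

/-! ### The rows at the event -/

/-- The period of the run charts (76's `per_exists`). -/
structure PerU {Q : Type u} [Group Q] {B : Lb.{u, v} Q} {l : L3 → B.L} (c : Cov B l L) (e : ℕ) (U : Q) : Prop where
  gz : ∀ D : Bd, D.Per 8 → ∀ s0 κ : ℤ, H76.gz (D.stp (qq B l) κ) s0 (8 * e) = U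
  comm : ∀ (x : Q) (i j : ℤ), c.Over x (true, i, j) → x * U = U * x

/-- The window of the blocks `a .. a + 8 e - 1`. -/
def Win (a e : ℕ) (m : ℤ) : Prop := (a : ℤ) ≤ m ∧ m < a + 8 * e

section two

variable {Q : Type u} [Group Q] {B : Lb.{u, v} Q} {l : L3 → B.L} {c : Cov B l L} {e : ℕ} {U : Q} (hU : PerU c e U)

include hU in
theorem row_bd (z : ℤ) {k0 k1 : ℤ} {p : ℤ × Q} (hp : Nod c (H.bd z) (g.rs z) k0 k1 p) (m : ℤ) (j : ℕ) :
    row (qq B l) (H.bd z) (g.rs z) (m + 8 * e * j) p = U ^ j * row (qq B l) (H.bd z) (g.rs z) m p := by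
  refine row_per_nat (qq B l) (H.bd_per z e) (hU.gz _ (by simpa using H.bd_per z 1) _ _) ?_ m j
  obtain ⟨i, j, hs⟩ := (H.bd z).st_zero p.1 (g.rs z)
  have h := hp.2.2
  rw [hs] at h
  exact hU.comm _ _ _ h

include hU in
/-- The rows at the event. -/
theorem exists_two (he : 0 < e) (z z' : ℤ) {a a' : ℕ} (ha : a ≤ g.rE z + 1) (k0 k1 k0' k1' : ℤ) :
    ∃ (m1 m1' : ℤ) (w w' : Q), Two c (qq B l) (H.bd z) (H.bd z') (g.rs z) (g.rs z') (g.rE z) k0 k1 k0' k1' (Win a e)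
      (Win a' e) (fun _ => True) (fun _ => True) m1 m1' w w' := by
  have h8 : 0 < 8 * e := by omega
  have h1 := Nat.mod_add_div (g.rE z + 1 - a) (8 * e)
  have h2 := Nat.mod_lt (g.rE z + 1 - a) h8
  have h3 := Nat.mod_add_div (a' + (8 * e - 1)) (8 * e)
  have h4 := Nat.mod_lt (a' + (8 * e - 1)) h8
  set j := (g.rE z + 1 - a) / (8 * e) with hj
  set j' := (a' + (8 * e - 1)) / (8 * e) with hj'
  set r := (g.rE z + 1 - a) % (8 * e) with hr
  refine ⟨((a + r : ℕ) : ℤ), 8 * e * j', U ^ j, U ^ j', ?_, ?_, ?_, ?_⟩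
  · refine ⟨by push_cast; omega, by push_cast; omega⟩
  · have h5 : (((8 * e * j' : ℕ)) : ℤ) = 8 * e * j' := by push_cast; ring
    have h6 : a' ≤ 8 * e * j' := by omega
    have h7 : 8 * e * j' < a' + 8 * e := by omega
    have h6' : (a' : ℤ) ≤ ((8 * e * j' : ℕ) : ℤ) := by exact_mod_cast h6
    have h7' : ((8 * e * j' : ℕ) : ℤ) < a' + 8 * e := by exact_mod_cast h7
    rw [h5] at h6' h7'
    exact ⟨h6', h7'⟩
  · intro p hp _
    have h5 : ((g.rE z : ℤ) + 1) = ((a + r : ℕ) : ℤ) + 8 * e * j := by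
      have : g.rE z + 1 = a + r + 8 * e * j := by omega
      exact_mod_cast this
    rw [h5]
    exact row_bd H hU z hp _ j
  · intro p hp _
    have := row_bd H hU z' hp 0 j'
    rwa [zero_add] at this

end two

/-! ### Three arcs between the runs of the main group -/

section main

variable {Q : Type u} [Group Q] {B : Lb.{u, v} Q} {l : L3 → B.L} {c : Cov B l L} (hi : ∀ i, B.inv (l i) = l i)
  {e : ℕ} {U : Q} (hU : PerU c e U) (he : 0 < e) {z z' x : ℤ} (hz : z + 1 = z' + x * g.w.Et) {a a' : ℕ}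
  (ha : a ≤ g.rE z + 1) {k0 k1 κ0 κ1 κ0' κ1' : ℤ} (hk : k0 + 4 ≤ k1)
  {V : Set (Sd c (H.bd z) (g.rs z) κ0 κ1)} {Λ : SimpleGraph V} {V' : Set (Sd c (H.bd z') (g.rs z') κ0' κ1')}
  {Λ' : SimpleGraph V'} (g1 : Grf c (H.bd z) (g.rs z) κ0 κ1 k0 k1 (Win a e) V Λ)
  (g2 : Grf c (H.bd z') (g.rs z') κ0' κ1' k0 k1 (Win a' e) V' Λ')

theorem gd_main (z : ℤ) (hk : k0 + 4 ≤ k1) : Function.Injective (fun i : Fin 3 => k0 + 1 + (i.1 : ℤ)) ∧
    ∀ i : Fin 3, Gd k0 k1 k0 k1 (dle g z) (fun _ => True) (fun _ => True) (k0 + 1 + (i.1 : ℤ)) := by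
  refine ⟨fun i j h => ?_, fun i => ?_⟩
  · have h : k0 + 1 + (i.1 : ℤ) = k0 + 1 + (j.1 : ℤ) := h
    exact Fin.ext (by omega)
  · have h1 := i.2
    have h2 := dle_cases g z
    unfold Gd
    refine ⟨by omega, by omega, by omega, by omega, trivial, trivial⟩

include hi hU he hz ha hk g1 g2 in
/-- T3 upwards. -/
theorem T3up_main (s : V) : ∃ s' : V', Arc3 (qq B l) (g.rE z) (dle g z) Λ Λ' s s' := by
  obtain ⟨m1, m1', w, w', T⟩ := exists_two H hU he z z' ha k0 k1 k0 k1 (a' := a')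
  obtain ⟨h1, h2⟩ := gd_main (g := g) z hk
  exact T3up hi (evt H hz) T g1 g2 h1 h2 s

include hi hU he hz ha hk g1 g2 in
/-- T3 downwards. -/
theorem T3down_main (s' : V') : ∃ s : V, Arc3 (qq B l) (g.rE z) (dle g z) Λ Λ' s s' := by
  obtain ⟨m1, m1', w, w', T⟩ := exists_two H hU he z z' ha k0 k1 k0 k1 (a' := a')
  obtain ⟨h1, h2⟩ := gd_main (g := g) z hk
  exact T3down hi (evt H hz) T g1 g2 h1 h2 s'

include hi hU he hz ha hk g1 g2 in
/-- T4. -/
theorem T4_main {s : V} {s' : V'} (h : s'.1.1 = pass (qq B l) (H.bd z) (g.rs z) (g.rE z) (dle g z) s.1.1) :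
    Arc3 (qq B l) (g.rE z) (dle g z) Λ Λ' s s' := by
  obtain ⟨m1, m1', w, w', T⟩ := exists_two H hU he z z' ha k0 k1 k0 k1 (a' := a')
  obtain ⟨h1, h2⟩ := gd_main (g := g) z hk
  exact T4 hi (evt H hz) T g1 g2 h1 h2 h trivial trivial

end main

/-! ### The period exists -/

section per

open Pool.Agent.Lib.MP_688fd0_co.SQ3 Pool.Agent.Lib.MP_688fd0_co.SQ5.H58

variable {Q : Type} [Group Q] {N C : Subgroup Q} {eps : Q →* ℤˣ} {k P : ℕ} {x : Fin 3 → Q} (H : Inv3 eps x)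
  {B : Lb.{0, v} Q} {l : L3 → B.L} {t a b : Fin 3} (hta : t ≠ a) (htb : t ≠ b) (hab : a ≠ b) (ht : B.q (l .t) = x t)
  (ha : B.q (l .a) = x a) (hb : B.q (l .b) = x b)

/-- `PerU` from the conclusion of 76's `per_exists`. -/
theorem perU_of {e : ℕ} {U : Q} (h1 : ∀ y, eps y = 1 → y * U = U * y)
    (h2 : ∀ D : Bd, D.Per 8 → ∀ s0 κ : ℤ, H76.gz (D.stp (qq B l) κ) s0 (8 * e) = U) :
    PerU (H.co hta htb hab ht ha hb).cov e U :=
  ⟨h2, fun _ _ _ hx => h1 _ (eps_of_over H hta htb hab ht ha hb hx)⟩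

end per

end Pool.Agent.Lib.MP_688fd0_co.SQ5.H53.RegC
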