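import Pool.Agent.Lib.MP_688fd0_co.SQ5.H53.RegL
import Pool.Agent.Lib.MP_688fd0_co.SQ5.H67.EvArc
import Pool.Agent.Lib.MP_688fd0_co.SQ5.H48.LamQ
import Pool.Agent.Lib.MP_688fd0_co.SQ5.H95.FarB

/-!
MP_688fd0_co, type C2, case FAR-3 (helper53): THE REGION GRAPH IS CONNECTED, for a window `[v0, v1]` of labels inside the interval
`[V0, V1]` of the active labels. `Λ z`: any graph on the active strands which contains the rungs of the window. `conn_win`,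
`hconn` (FAR-3: window = all active labels, `Λ = LamV`). Ingredients: helper48's `lam_plane`, helper67's `harc`, `down_lam`,
`pass_lam`.
-/

set_option autoImplicit false

namespace Pool.Agent.Lib.MP_688fd0_co.SQ5.H53.HConn

open Function Pool.Agent.Lib.MP_688fd0_co.OSF Pool.Agent.Lib.MP_688fd0_co.SQ5.H95 Pool.Agent.Lib.MP_688fd0_co.SQ5.H76
open Pool.Agent.Lib.MP_688fd0_co.SQ5.H53.RegC

universe u v

/-! ### Cyclic induction -/

section cyc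

variable {L : AddSubgroup (ℤ × ℤ)} {M R : ℕ} {dc : ℕ → ℤ} {spc : ℕ → Prop} {Gr : ℤ} {g : Geo L M R dc spc Gr}

theorem conn_zr {N : Zr g → Type*} (Re : (Σ z, N z) → (Σ z, N z) → Prop) (hR : Equivalence Re)
    (dn : ∀ (z z' : Zr g) (x : ℤ), (z : ℤ) + 1 = z' + x * g.w.Et → ∀ s' : N z', ∃ s : N z, Re ⟨z, s⟩ ⟨z', s'⟩) (z0 : Zr g)
    (h0 : ∀ s s' : N z0, Re ⟨z0, s⟩ ⟨z0, s'⟩) (a b : Σ z, N z) : Re a b := by
  have hE : 0 < g.w.Et := lt_of_le_of_lt z0.2.1 z0.2.2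
  have key : ∀ k : ℕ, ∀ z : Zr g, ((z0 : ℤ) + k) % g.w.Et = z → ∀ s : N z, ∃ s0 : N z0, Re ⟨z0, s0⟩ ⟨z, s⟩ := by
    intro k
    induction k with
    | zero =>
      intro z hz s
      rw [Nat.cast_zero, add_zero, Int.emod_eq_of_lt z0.2.1 z0.2.2] at hz
      have : z0 = z := Subtype.ext hz
      subst this
      exact ⟨s, hR.refl _⟩
    | succ k ih =>
      intro z hz s
      have hm : ((z0 : ℤ) + k) % g.w.Et ∈ Set.Ico (0 : ℤ) g.w.Et := ⟨Int.emod_nonneg _ hE.ne', Int.emod_lt_of_pos _ hE⟩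
      have e1 : (((z0 : ℤ) + k) % g.w.Et + 1) % g.w.Et = z := by
        rw [← hz, Int.emod_add_emod]
        congr 1
        push_cast
        ring
      obtain ⟨s1, h1⟩ := dn ⟨((z0 : ℤ) + k) % g.w.Et, hm⟩ z ((((z0 : ℤ) + k) % g.w.Et + 1) / g.w.Et) (by
        rw [← e1]
        have := Int.emod_add_mul_ediv (((z0 : ℤ) + k) % g.w.Et + 1) g.w.Et
        rw [mul_comm] at this
        exact this.symm) s
      obtain ⟨s0, h2⟩ := ih ⟨((z0 : ℤ) + k) % g.w.Et, hm⟩ rfl s1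
      exact ⟨s0, hR.trans h2 h1⟩
  have key2 : ∀ a : (Σ z, N z), ∃ s0 : N z0, Re ⟨z0, s0⟩ a := by
    rintro ⟨z, s⟩
    refine key ((z : ℤ) + (g.w.Et - z0)).toNat z ?_ s
    have h1 := z0.2.2
    have h2 := z.2.1
    rw [Int.toNat_of_nonneg (by omega)]
    have e : (z0 : ℤ) + ((z : ℤ) + (g.w.Et - z0)) = z + g.w.Et := by ring
    rw [e, Int.add_emod_right, Int.emod_eq_of_lt z.2.1 z.2.2]
  obtain ⟨s1, h1⟩ := key2 a
  obtain ⟨s2, h2⟩ := key2 b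
  exact hR.trans (hR.symm h1) (hR.trans (h0 s1 s2) h2)

end cyc

/-! ### The window -/

section win

variable {L : AddSubgroup (ℤ × ℤ)} {M R : ℕ} {dc : ℕ → ℤ} {spc : ℕ → Prop} {Gr : ℤ} {g : Geo L M R dc spc Gr} {m0 : ℕ}
  {hw : ℤ → ℕ} (H : Geo.Mn g m0 hw) {Q : Type} [Group Q] {B : Lb.{0, v} Q} {l : L3 → B.L} (c : Cov B l L)
  (hi : ∀ i, B.inv (l i) = l i) (hq : Injective (qq B l)) (hii : ∀ x, B.inv (B.inv x) = x) {κ0 κ1 V0 V1 v0 v1 : ℤ}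
  (h0 : 2 ≤ κ0) (h1 : κ1 ≤ m0) {p : ℕ} (hp : 2 ≤ p) (hN : ∀ z : Zr g, p ≤ g.rE z)
  (Λ : ∀ z : Zr g, SimpleGraph (VV c H κ0 κ1 V0 V1 z))

/-- The regions which meet the window. -/
def WinR (v0 v1 : ℤ) (r : Σ z, Rgs.KC (VV c H κ0 κ1 V0 V1) Λ z) : Prop :=
  ∃ s : VV c H κ0 κ1 V0 V1 r.1, v0 ≤ s.1.1.1 ∧ s.1.1.1 ≤ v1 ∧ Rgs.cpC (VV c H κ0 κ1 V0 V1) Λ r.1 s = r.2

/-- Three arcs between regions which meet the window. -/
def St (v0 v1 : ℤ) (r r' : Σ z, Rgs.KC (VV c H κ0 κ1 V0 V1) Λ z) : Prop :=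
  WinR H c Λ v0 v1 r ∧ WinR H c Λ v0 v1 r' ∧
    (inst H c hi hq hii κ0 κ1 h0 h1 p hp hN).RAdj (VV c H κ0 κ1 V0 V1) (Rgs.cpC (VV c H κ0 κ1 V0 V1) Λ) r r'

/-- The nodes of the window. -/
abbrev NW (κ0 κ1 v0 v1 : ℤ) (z : Zr g) : Type := VL c (H.bd z) (g.rs z) κ0 κ1 v0 v1

/-- A node of the window is an active strand. -/
def inc (hV0 : V0 ≤ v0) (hV1 : v1 ≤ V1) {z : Zr g} (s : NW H c κ0 κ1 v0 v1 z) : VV c H κ0 κ1 V0 V1 z :=
  ⟨s.1, hV0.trans s.2.1, s.2.2.trans hV1⟩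

/-- The region of a node. -/
def reg (hV0 : V0 ≤ v0) (hV1 : v1 ≤ V1) (a : Σ z, NW H c κ0 κ1 v0 v1 z) : Σ z, Rgs.KC (VV c H κ0 κ1 V0 V1) Λ z :=
  ⟨a.1, Rgs.cpC (VV c H κ0 κ1 V0 V1) Λ a.1 (inc H c hV0 hV1 a.2)⟩

theorem winR_reg (hV0 : V0 ≤ v0) (hV1 : v1 ≤ V1) (a : Σ z, NW H c κ0 κ1 v0 v1 z) :
    WinR H c Λ v0 v1 (reg H c Λ hV0 hV1 a) := ⟨inc H c hV0 hV1 a.2, a.2.2.1, a.2.2.2, rfl⟩

variable (hV0 : V0 ≤ v0) (hV1 : v1 ≤ V1)
  (hΛ : ∀ (z : Zr g) (s s' : VV c H κ0 κ1 V0 V1 z), (H20.Lam c (H.bd z) (g.rs z) κ0 κ1 v0 v1).Adj s.1 s'.1 → (Λ z).Adj s s')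

include hΛ in
theorem reach_inc {z : Zr g} {s s' : NW H c κ0 κ1 v0 v1 z}
    (h : (RegC.LamV c (H.bd z) (g.rs z) κ0 κ1 v0 v1).Reachable s s') :
    (Λ z).Reachable (inc H c hV0 hV1 s) (inc H c hV0 hV1 s') := by
  rw [SimpleGraph.reachable_iff_reflTransGen] at h ⊢
  exact h.lift (inc H c hV0 hV1) fun _ _ hab => hΛ z _ _ hab

include hΛ in
theorem reg_eq {z : Zr g} {s s' : NW H c κ0 κ1 v0 v1 z}
    (h : (RegC.LamV c (H.bd z) (g.rs z) κ0 κ1 v0 v1).Reachable s s') :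
    reg H c Λ hV0 hV1 ⟨z, s⟩ = reg H c Λ hV0 hV1 ⟨z, s'⟩ := by
  unfold reg
  congr 1
  exact SimpleGraph.ConnectedComponent.sound (reach_inc H c Λ hV0 hV1 hΛ h)

include hΛ in
/-- THREE ARCS in both directions. -/
theorem st_of_arc3 {z z' : Zr g} {s : NW H c κ0 κ1 v0 v1 z} {s' : NW H c κ0 κ1 v0 v1 z'}
    (h : Arc3 (qq B l) (g.rE z) (dle g z) (RegC.LamV c (H.bd z) (g.rs z) κ0 κ1 v0 v1)
      (RegC.LamV c (H.bd z') (g.rs z') κ0 κ1 v0 v1) s s') :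
    St H c hi hq hii h0 h1 hp hN Λ v0 v1 (reg H c Λ hV0 hV1 ⟨z, s⟩) (reg H c Λ hV0 hV1 ⟨z', s'⟩) ∧
      St H c hi hq hii h0 h1 hp hN Λ v0 v1 (reg H c Λ hV0 hV1 ⟨z', s'⟩) (reg H c Λ hV0 hV1 ⟨z, s⟩) := by
  obtain ⟨a, b, ha, hb, hab⟩ := h
  have hcn := fun l => H67.harc H c hi hq hii h0 h1 p hp hN (VV c H κ0 κ1 V0 V1) (z := z) (z' := z') (s := (a l).1)
    (s' := (b l).1) (hab l).2.2
  have hsy : ∀ x y, (H95.ff c hi hq hii g).Ed x y → (H95.ff c hi hq hii g).Ed y x := fun x y h => (H95.ff c hi hq hii g).ed_symm h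
  have ca : ∀ l, Rgs.cpC (VV c H κ0 κ1 V0 V1) Λ z (inc H c hV0 hV1 (a l)) =
      Rgs.cpC (VV c H κ0 κ1 V0 V1) Λ z (inc H c hV0 hV1 s) := fun l =>
    SimpleGraph.ConnectedComponent.sound (reach_inc H c Λ hV0 hV1 hΛ (hab l).1).symm
  have cb : ∀ l, Rgs.cpC (VV c H κ0 κ1 V0 V1) Λ z' (inc H c hV0 hV1 (b l)) =
      Rgs.cpC (VV c H κ0 κ1 V0 V1) Λ z' (inc H c hV0 hV1 s') := fun l =>
    SimpleGraph.ConnectedComponent.sound (reach_inc H c Λ hV0 hV1 hΛ (hab l).2.1).symm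
  have ia : Injective fun l => ((inc H c hV0 hV1 (a l), true) : VV c H κ0 κ1 V0 V1 z × Bool) := fun i j h => by
    apply ha
    have h1 := congrArg (fun x => x.1.1) h
    exact Subtype.ext h1
  have ib : Injective fun l => ((inc H c hV0 hV1 (b l), false) : VV c H κ0 κ1 V0 V1 z' × Bool) := fun i j h => by
    apply hb
    have h1 := congrArg (fun x => x.1.1) h
    exact Subtype.ext h1
  refine ⟨⟨winR_reg H c Λ hV0 hV1 _, winR_reg H c Λ hV0 hV1 _, fun l => (inc H c hV0 hV1 (a l), true),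
    fun l => (inc H c hV0 hV1 (b l), false), ia, fun l => ⟨ca l, cb l, fun h => ?_, hcn l⟩⟩,
    ⟨winR_reg H c Λ hV0 hV1 _, winR_reg H c Λ hV0 hV1 _, fun l => (inc H c hV0 hV1 (b l), false),
    fun l => (inc H c hV0 hV1 (a l), true), ib, fun l => ⟨cb l, ca l, fun h => ?_, (hcn l).symm' hsy⟩⟩⟩
  · have h2 : true = false := congrArg (fun x : (Σ z, VV c H κ0 κ1 V0 V1 z × Bool) => x.2.2) h
    exact absurd h2 (by decide)
  · have h2 : false = true := congrArg (fun x : (Σ z, VV c H κ0 κ1 V0 V1 z × Bool) => x.2.2) h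
    exact absurd h2 (by decide)

theorem rtg_symm {α : Type*} {r : α → α → Prop} (hr : ∀ a b, r a b → r b a) {a b : α}
    (h : Relation.ReflTransGen r a b) : Relation.ReflTransGen r b a := by
  induction h with
  | refl => exact Relation.ReflTransGen.refl
  | tail _ h ih => exact Relation.ReflTransGen.head (hr _ _ h) ih

theorem rtg_mono {α : Type*} {r p : α → α → Prop} (hr : ∀ a b, r a b → p a b) {a b : α}
    (h : Relation.ReflTransGen r a b) : Relation.ReflTransGen p a b := by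
  induction h with
  | refl => exact Relation.ReflTransGen.refl
  | tail _ h ih => exact ih.tail (hr _ _ h)

/-- Regions of nodes joined by steps in both directions. -/
def Rr (a b : Σ z, NW H c κ0 κ1 v0 v1 z) : Prop :=
  Relation.ReflTransGen (fun r r' => St H c hi hq hii h0 h1 hp hN Λ v0 v1 r r' ∧ St H c hi hq hii h0 h1 hp hN Λ v0 v1 r' r)
    (reg H c Λ hV0 hV1 a) (reg H c Λ hV0 hV1 b)

theorem rr_equiv : Equivalence (Rr H c hi hq hii h0 h1 hp hN Λ hV0 hV1) where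
  refl _ := Relation.ReflTransGen.refl
  symm h := rtg_symm (fun _ _ h => ⟨h.2, h.1⟩) h
  trans h h' := Relation.ReflTransGen.trans h h'

/-! ### The four runs of helper48 -/

section four

variable (hk0 : κ0 ≤ v0) (hk1 : v1 ≤ κ1)

include hk0 hk1 in
/-- A node. -/
theorem exists_NW {z : Zr g} {q : ℤ × Q} (h : Nod c (H.bd z) (g.rs z) v0 v1 q) : ∃ s : NW H c κ0 κ1 v0 v1 z, s.1.1 = q :=
  (grf_lam c (H.bd z) (g.rs z) hk0 hk1 (fun _ => True)).exists_node h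

/-- Valid triples. -/
def Val (H : Geo.Mn g m0 hw) (c : Cov B l L) (v0 v1 : ℤ) (t : ℤ × ℤ × Q) : Prop :=
  t.1 ∈ Set.Ico (0 : ℤ) g.w.Et ∧ Nod c (H.bd t.1) (g.rs t.1) v0 v1 t.2

/-- The node of a valid triple. -/
def nd {t : ℤ × ℤ × Q} (h : Val H c v0 v1 t) : Σ z, NW H c κ0 κ1 v0 v1 z :=
  ⟨⟨t.1, h.1⟩, ⟨⟨t.2, hk0.trans h.2.1, h.2.2.1.trans hk1, h.2.2.2⟩, h.2.1, h.2.2.1⟩⟩

open Classical in
/-- The class of a triple. -/
noncomputable def cls (t : ℤ × ℤ × Q) : Option (Quotient (Setoid.mk _ (rr_equiv H c hi hq hii h0 h1 hp hN Λ hV0 hV1))) :=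
  if h : Val H c v0 v1 t then some (Quotient.mk _ (nd H c hk0 hk1 h)) else none

theorem cls_eq {t t' : ℤ × ℤ × Q} (h : Val H c v0 v1 t) (h' : Val H c v0 v1 t') :
    cls H c hi hq hii h0 h1 hp hN Λ hV0 hV1 hk0 hk1 t = cls H c hi hq hii h0 h1 hp hN Λ hV0 hV1 hk0 hk1 t' ↔
      Rr H c hi hq hii h0 h1 hp hN Λ hV0 hV1 (nd H c hk0 hk1 h) (nd H c hk0 hk1 h') := by
  unfold cls
  rw [dif_pos h, dif_pos h', Option.some_inj]
  exact ⟨fun h => Quotient.exact h, fun h => Quotient.sound h⟩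

variable {e : ℕ} {U : Q} (hU : PerU c e U) (he : 0 < e) (hk : v0 + 4 ≤ v1)

include hi hU he hk hΛ hk0 hk1 in
/-- Every node is joined to a node of the run before. -/
theorem down_rr {z z' : Zr g} {x : ℤ} (hz : (z : ℤ) + 1 = z' + x * g.w.Et) (s' : NW H c κ0 κ1 v0 v1 z') :
    ∃ s : NW H c κ0 κ1 v0 v1 z, Rr H c hi hq hii h0 h1 hp hN Λ hV0 hV1 ⟨z, s⟩ ⟨z', s'⟩ := by
  obtain ⟨s, hs⟩ := down_lam H hi hU he hz hk0 hk1 hk0 hk1 hk s'
  obtain ⟨h3, h4⟩ := st_of_arc3 H c hi hq hii h0 h1 hp hN Λ hV0 hV1 hΛ hs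
  exact ⟨s, Relation.ReflTransGen.single ⟨h3, h4⟩⟩

include hi hU he hk hΛ hk0 hk1 in
/-- The strand which passes the event. -/
theorem pass_rr {z z' : Zr g} {x : ℤ} (hz : (z : ℤ) + 1 = z' + x * g.w.Et) {s : NW H c κ0 κ1 v0 v1 z}
    {s' : NW H c κ0 κ1 v0 v1 z'} (hs : s'.1.1 = pass (qq B l) (H.bd z) (g.rs z) (g.rE z) (dle g z) s.1.1) :
    Rr H c hi hq hii h0 h1 hp hN Λ hV0 hV1 ⟨z, s⟩ ⟨z', s'⟩ := by
  obtain ⟨h3, h4⟩ := st_of_arc3 H c hi hq hii h0 h1 hp hN Λ hV0 hV1 hΛ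
    (pass_lam H hi hU he hz hk0 hk1 hk0 hk1 hk hs)
  exact Relation.ReflTransGen.single ⟨h3, h4⟩

theorem dle_of_rp {z : ℤ} (h : g.rp (z + 1) % 8 = 0) : dle g z = -1 := by
  have h2 : g.rp (z + 1) = g.w.e z - 3 * z - 2 := by
    unfold Geo.rp Geo.rs
    rw [add_sub_cancel_right]
    ring
  unfold dle
  rw [if_pos (by omega)]

include hi hU he hk hΛ hk0 hk1 in
/-- THE NODES OF THE WINDOW ARE CONNECTED. -/
theorem win_rr [Finite Q] (Nn : Subgroup Q) [Nn.Normal] (hNn : IsCyclic Nn) (hco : (Nat.card Nn).Coprime Nn.index)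
    {e1 : ℕ} (he1 : Nn.index ∣ e1) (e10 : 0 < e1) {r0 w : ℤ} (hr0 : 0 ≤ r0) (hr2 : r0 + 2 ≤ m0) (hw2 : (e1 : ℤ) + 2 ≤ w)
    (hw4 : 4 ≤ w) (hm : ∀ K, r0 < K → K < r0 + w → hw K = 2) (o1 : hw r0 % 2 = 1) (o2 : hw (r0 + w) % 2 = 1)
    (o3 : hw r0 = 3 ∨ hw (r0 + w) = 3)
    (hF : ∀ v y y', c.Over y v → c.Over y' v → y⁻¹ * y' ∈ H48.K0 (qq B l .a * qq B l .t) (qq B l .a * qq B l .b))
    {z1 : ℤ} (hz1 : 0 ≤ z1) (hz4 : z1 + 3 < g.w.Et) (hrp : ∀ z, z1 ≤ z → z ≤ z1 + 3 → g.rp z % 8 = 0)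
    (hrE : ∀ z, z1 ≤ z → z ≤ z1 + 2 → ∃ n : ℕ, (g.rE z : ℤ) + 1 = 8 * e1 * n + 3) (hv0 : v0 = r0 + 2)
    (hv1 : v1 = r0 + w + 1) (a b : Σ z, NW H c κ0 κ1 v0 v1 z) : Rr H c hi hq hii h0 h1 hp hN Λ hV0 hV1 a b := by
  subst hv0 hv1
  refine conn_zr (Rr H c hi hq hii h0 h1 hp hN Λ hV0 hV1) (rr_equiv H c hi hq hii h0 h1 hp hN Λ hV0 hV1)
    (fun z z' x hz s' => down_rr H c hi hq hii h0 h1 hp hN Λ hV0 hV1 hΛ hk0 hk1 hU he hk hz s') ⟨z1, hz1, by omega⟩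
    (fun s s' => ?_) a b
  have hs : Val H c (r0 + 2) (r0 + w + 1) (z1, s.1.1) := ⟨⟨hz1, by show z1 < _; omega⟩, s.2.1, s.2.2, s.1.2.2.2⟩
  have hs' : Val H c (r0 + 2) (r0 + w + 1) (z1, s'.1.1) := ⟨⟨hz1, by show z1 < _; omega⟩, s'.2.1, s'.2.2, s'.1.2.2.2⟩
  refine (cls_eq H c hi hq hii h0 h1 hp hN Λ hV0 hV1 hk0 hk1 hs hs').1 ?_
  refine H48.lam_plane H c hi Nn hNn hco he1 e10 hr0 hr2 hw2 hw4 hm o1 o2 o3 hF hrp hrE
    (Rel := fun t t' => cls H c hi hq hii h0 h1 hp hN Λ hV0 hV1 hk0 hk1 t = cls H c hi hq hii h0 h1 hp hN Λ hV0 hV1 hk0 hk1 t')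
    ⟨fun _ => rfl, fun h => h.symm, fun h h' => h.trans h'⟩ (j0 := 0) ⟨0, by ring⟩ ?_ ?_ (le_refl z1) (by omega)
    (le_refl z1) (by omega) s.2.1 s.2.2 s'.2.1 s'.2.2 s.1.2.2.2 s'.1.2.2.2
  · intro z hz hz3 κ κ' m a0 a1 a2 a3 _ _ a6 x x' hx hx' hxx
    have hv : Val H c (r0 + 2) (r0 + w + 1) (z, κ, x) := ⟨⟨by show 0 ≤ z; omega, by show z < _; omega⟩, a0, a1, hx⟩
    have hv' : Val H c (r0 + 2) (r0 + w + 1) (z, κ', x') := ⟨⟨by show 0 ≤ z; omega, by show z < _; omega⟩, a2, a3, hx'⟩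
    refine (cls_eq H c hi hq hii h0 h1 hp hN Λ hV0 hV1 hk0 hk1 hv hv').2 ?_
    have hr : Rung (qq B l) (H.bd z) (g.rs z) m (κ, x) (κ', x') := by
      refine ⟨?_, hxx⟩
      have h := (H.bd z).hcs (g.rs z + m)
      rw [← add_assoc, h] at a6
      show κ' = κ + _
      rw [a6]
      ring
    have h5 : reg H c Λ hV0 hV1 (nd H c hk0 hk1 hv) = reg H c Λ hV0 hV1 (nd H c hk0 hk1 hv') := by
      refine reg_eq H c Λ hV0 hV1 hΛ (z := ⟨z, hv.1⟩) (SimpleGraph.Adj.reachable ?_)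
      exact (rung_H20.2 hr).adj ⟨a0, a1⟩ ⟨a2, a3⟩
    unfold Rr
    rw [h5]
  · intro z hz hz3 κ a0 a1 x hx
    have hdl := dle_of_rp (g := g) (z := z) (hrp (z + 1) (by omega) (by omega))
    have hv : Val H c (r0 + 2) (r0 + w + 1) (z, κ, x) :=
      ⟨⟨by show 0 ≤ z; omega, by show z < _; omega⟩, by show r0 + 2 ≤ κ; omega, by show κ ≤ r0 + w + 1; omega, hx⟩
    have hn := nod_pass c hi (evt H (z := z) (z' := z + 1) (x := 0) (by ring)) (p := (κ, x)) hv.2 (k0' := r0 + 2)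
      (k1' := r0 + w + 1) (by rw [hdl]; show r0 + 2 ≤ κ + -1; omega) (by rw [hdl]; show κ + -1 ≤ r0 + w + 1; omega)
    have e1 : pass (qq B l) (H.bd z) (g.rs z) (g.rE z) (dle g z) (κ, x) =
        (κ - 1, x * (H.bd z).pos (qq B l) (g.rs z) κ (g.rE z + 1) 0) := by
      rw [hdl]
      rfl
    rw [e1] at hn
    have hv' : Val H c (r0 + 2) (r0 + w + 1) (z + 1, κ - 1, x * (H.bd z).pos (qq B l) (g.rs z) κ (g.rE z + 1) 0) :=
      ⟨⟨by show 0 ≤ z + 1; omega, by show z + 1 < _; omega⟩, hn⟩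
    refine (cls_eq H c hi hq hii h0 h1 hp hN Λ hV0 hV1 hk0 hk1 hv hv').2 ?_
    refine pass_rr H c hi hq hii h0 h1 hp hN Λ hV0 hV1 hΛ hk0 hk1 hU he hk (z := ⟨z, hv.1⟩) (z' := ⟨z + 1, hv'.1⟩) (x := 0)
      (by ring) ?_
    exact e1.symm

include hV0 hV1 hU he hk hΛ hk0 hk1 in
/-- THE REGIONS WHICH MEET THE WINDOW ARE CONNECTED by steps of three arcs. -/
theorem conn_win [Finite Q] (Nn : Subgroup Q) [Nn.Normal] (hNn : IsCyclic Nn) (hco : (Nat.card Nn).Coprime Nn.index)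
    {e1 : ℕ} (he1 : Nn.index ∣ e1) (e10 : 0 < e1) {r0 w : ℤ} (hr0 : 0 ≤ r0) (hr2 : r0 + 2 ≤ m0) (hw2 : (e1 : ℤ) + 2 ≤ w)
    (hw4 : 4 ≤ w) (hm : ∀ K, r0 < K → K < r0 + w → hw K = 2) (o1 : hw r0 % 2 = 1) (o2 : hw (r0 + w) % 2 = 1)
    (o3 : hw r0 = 3 ∨ hw (r0 + w) = 3)
    (hF : ∀ v y y', c.Over y v → c.Over y' v → y⁻¹ * y' ∈ H48.K0 (qq B l .a * qq B l .t) (qq B l .a * qq B l .b))
    {z1 : ℤ} (hz1 : 0 ≤ z1) (hz4 : z1 + 3 < g.w.Et) (hrp : ∀ z, z1 ≤ z → z ≤ z1 + 3 → g.rp z % 8 = 0)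
    (hrE : ∀ z, z1 ≤ z → z ≤ z1 + 2 → ∃ n : ℕ, (g.rE z : ℤ) + 1 = 8 * e1 * n + 3) (hv0 : v0 = r0 + 2)
    (hv1 : v1 = r0 + w + 1) (z z' : Zr g) (s : VV c H κ0 κ1 V0 V1 z) (s' : VV c H κ0 κ1 V0 V1 z') (a0 : v0 ≤ s.1.1.1)
    (a1 : s.1.1.1 ≤ v1) (a2 : v0 ≤ s'.1.1.1) (a3 : s'.1.1.1 ≤ v1) :
    Relation.ReflTransGen (fun r r' => WinR H c Λ v0 v1 r ∧ WinR H c Λ v0 v1 r' ∧
      (inst H c hi hq hii κ0 κ1 h0 h1 p hp hN).RAdj (VV c H κ0 κ1 V0 V1) (Rgs.cpC (VV c H κ0 κ1 V0 V1) Λ) r r')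
      ⟨z, Rgs.cpC (VV c H κ0 κ1 V0 V1) Λ z s⟩ ⟨z', Rgs.cpC (VV c H κ0 κ1 V0 V1) Λ z' s'⟩ := by
  have h := win_rr H c hi hq hii h0 h1 hp hN Λ hV0 hV1 hΛ hk0 hk1 hU he hk Nn hNn hco he1 e10 hr0 hr2 hw2 hw4 hm o1 o2 o3
    hF hz1 hz4 hrp hrE hv0 hv1 ⟨z, ⟨s.1, a0, a1⟩⟩ ⟨z', ⟨s'.1, a2, a3⟩⟩
  exact rtg_mono (fun _ _ h => h.1) h

include hU he hk hk0 hk1 in
/-- FAR-3: all regions are connected (the window = all active labels, the rung graph `LamV`). -/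
theorem hconn [Finite Q] (Nn : Subgroup Q) [Nn.Normal] (hNn : IsCyclic Nn) (hco : (Nat.card Nn).Coprime Nn.index)
    {e1 : ℕ} (he1 : Nn.index ∣ e1) (e10 : 0 < e1) {r0 w : ℤ} (hr0 : 0 ≤ r0) (hr2 : r0 + 2 ≤ m0) (hw2 : (e1 : ℤ) + 2 ≤ w)
    (hw4 : 4 ≤ w) (hm : ∀ K, r0 < K → K < r0 + w → hw K = 2) (o1 : hw r0 % 2 = 1) (o2 : hw (r0 + w) % 2 = 1)
    (o3 : hw r0 = 3 ∨ hw (r0 + w) = 3)
    (hF : ∀ v y y', c.Over y v → c.Over y' v → y⁻¹ * y' ∈ H48.K0 (qq B l .a * qq B l .t) (qq B l .a * qq B l .b))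
    {z1 : ℤ} (hz1 : 0 ≤ z1) (hz4 : z1 + 3 < g.w.Et) (hrp : ∀ z, z1 ≤ z → z ≤ z1 + 3 → g.rp z % 8 = 0)
    (hrE : ∀ z, z1 ≤ z → z ≤ z1 + 2 → ∃ n : ℕ, (g.rE z : ℤ) + 1 = 8 * e1 * n + 3) (hv0 : v0 = r0 + 2)
    (hv1 : v1 = r0 + w + 1)
    (r₀ r : Σ z, Rgs.KC (VV c H κ0 κ1 v0 v1) (H95.LamV H c κ0 κ1 v0 v1) z) :
    Relation.ReflTransGen ((inst H c hi hq hii κ0 κ1 h0 h1 p hp hN).RAdj (VV c H κ0 κ1 v0 v1)
      (Rgs.cpC (VV c H κ0 κ1 v0 v1) (H95.LamV H c κ0 κ1 v0 v1))) r₀ r := by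
  obtain ⟨z, κ⟩ := r₀
  obtain ⟨z', κ'⟩ := r
  obtain ⟨s, rfl⟩ := κ.exists_rep
  obtain ⟨s', rfl⟩ := κ'.exists_rep
  have h := conn_win H c hi hq hii h0 h1 hp hN (H95.LamV H c κ0 κ1 v0 v1) le_rfl le_rfl (fun _ _ _ h => h) hk0 hk1 hU he hk
    Nn hNn hco he1 e10 hr0 hr2 hw2 hw4 hm o1 o2 o3 hF hz1 hz4 hrp hrE hv0 hv1 z z' s s' s.2.1 s.2.2 s'.2.1 s'.2.2
  exact rtg_mono (fun _ _ h => h.2.2) h

end four

end win

/-! ### The fibre -/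

section fibre

open Pool.Agent.Lib.MP_688fd0_co.SQ3 Pool.Agent.Lib.MP_688fd0_co.SQ5.H58

variable {Q : Type} [Group Q] {eps : Q →* ℤˣ} {x : Fin 3 → Q} (Hx : Inv3 eps x) {B : Lb.{0, v} Q} {l : L3 → B.L}
  {t a b : Fin 3} (hta : t ≠ a) (htb : t ≠ b) (hab : a ≠ b) (ht : B.q (l .t) = x t) (ha : B.q (l .a) = x a)
  (hb : B.q (l .b) = x b)

include Hx hta htb hab in
/-- `ker eps` is generated by `a t`, `a b`. -/
theorem ker_le : eps.ker ≤ Subgroup.closure {x a * x t, x a * x b} := by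
  have m1 : x a * x t ∈ Subgroup.closure {x a * x t, x a * x b} := Subgroup.subset_closure (by simp)
  have m2 : x a * x b ∈ Subgroup.closure {x a * x t, x a * x b} := Subgroup.subset_closure (by simp)
  have hinv : ∀ i, (x i)⁻¹ = x i := fun i => inv_eq_of_mul_eq_one_left (Hx.inv i)
  have m3 : ∀ i, x i * x t ∈ Subgroup.closure {x a * x t, x a * x b} := by
    intro i
    rcases three hta htb hab i with rfl | rfl | rfl
    · rw [Hx.inv]; exact one_mem _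
    · exact m1
    · have e : x i * x t = (x a * x i)⁻¹ * (x a * x t) := by
        rw [mul_inv_rev, hinv, hinv, mul_assoc, ← mul_assoc (x a), Hx.inv, one_mul]
      rw [e]
      exact mul_mem (inv_mem m2) m1
  have key : ∀ g : Q, (eps g = 1 → g ∈ Subgroup.closure {x a * x t, x a * x b}) ∧
      (eps g = -1 → g * x t ∈ Subgroup.closure {x a * x t, x a * x b}) := by
    intro g
    have hg : g ∈ Subgroup.closure (Set.range x) := by rw [Hx.gen]; exact Subgroup.mem_top g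
    have st : ∀ y i, ((eps y = 1 → y ∈ Subgroup.closure {x a * x t, x a * x b}) ∧
        (eps y = -1 → y * x t ∈ Subgroup.closure {x a * x t, x a * x b})) →
        ((eps (y * x i) = 1 → y * x i ∈ Subgroup.closure {x a * x t, x a * x b}) ∧
        (eps (y * x i) = -1 → y * x i * x t ∈ Subgroup.closure {x a * x t, x a * x b})) := by
      rintro y i ⟨h1, h2⟩
      rw [map_mul, Hx.neg]
      constructor
      · intro h
        have h3 : eps y = -1 := by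
          rcases Int.units_eq_one_or (eps y) with h4 | h4
          · rw [h4] at h; exact absurd h (by decide)
          · exact h4
        have e : y * x i = y * x t * (x i * x t)⁻¹ := by
          rw [mul_inv_rev, hinv, hinv, mul_assoc, ← mul_assoc (x t), Hx.inv, one_mul]
        rw [e]
        exact mul_mem (h2 h3) (inv_mem (m3 i))
      · intro h
        have h3 : eps y = 1 := by
          rcases Int.units_eq_one_or (eps y) with h4 | h4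
          · exact h4
          · rw [h4] at h; exact absurd h (by decide)
        rw [mul_assoc]
        exact mul_mem (h1 h3) (m3 i)
    induction hg using Subgroup.closure_induction_right with
    | one => exact ⟨fun _ => one_mem _, fun h => absurd (h.symm.trans (map_one eps)) (by decide)⟩
    | mul_right y _ s hs ih =>
      obtain ⟨i, rfl⟩ := hs
      exact st y i ih
    | mul_inv_cancel y _ s hs ih =>
      obtain ⟨i, rfl⟩ := hs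
      rw [hinv]
      exact st y i ih
  intro g hg
  exact (key g).1 hg

include Hx hta htb hab ht ha hb in
theorem K0_le : K0 eps ≤ H48.K0 (qq B l .a * qq B l .t) (qq B l .a * qq B l .b) := by
  have e : qq B l .a * qq B l .t = x a * x t ∧ qq B l .a * qq B l .b = x a * x b := by
    unfold qq
    rw [ht, ha, hb]
    exact ⟨rfl, rfl⟩
  rw [e.1, e.2]
  unfold K0
  rw [commutator_def, Subgroup.map_commutator]
  have h1 : (⊤ : Subgroup eps.ker).map eps.ker.subtype ≤ Subgroup.closure {x a * x t, x a * x b} := by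
    rintro _ ⟨y, -, rfl⟩
    exact ker_le Hx hta htb hab y.2
  exact Subgroup.commutator_mono h1 h1

theorem K0_conj {y : Q} (h : y ∈ K0 eps) (g : Q) : g * y * g⁻¹ ∈ K0 eps := by
  have hn : (K0 eps).Normal := by
    unfold K0
    rw [commutator_def, Subgroup.map_commutator]
    have e : (⊤ : Subgroup eps.ker).map eps.ker.subtype = eps.ker := by
      rw [← MonoidHom.range_eq_map, Subgroup.range_subtype]
    rw [e]
    infer_instance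
  exact hn.conj_mem y h g

/-- The fibre over any site. -/
theorem hF_cov (v : V) (y y' : Q) (h : (Hx.co hta htb hab ht ha hb).cov.Over y v)
    (h' : (Hx.co hta htb hab ht ha hb).cov.Over y' v) :
    y⁻¹ * y' ∈ H48.K0 (qq B l .a * qq B l .t) (qq B l .a * qq B l .b) := by
  refine K0_le Hx hta htb hab ht ha hb ?_
  obtain ⟨bb, i, j⟩ := v
  cases bb
  · have e1 : (Hx.co hta htb hab ht ha hb).cov.Over (y * B.q (l .t)) (true, i, j) := h.step .t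
    have e2 : (Hx.co hta htb hab ht ha hb).cov.Over (y' * B.q (l .t)) (true, i, j) := h'.step .t
    have e3 := over_K0 Hx hta htb hab ht ha hb e1 e2
    have e4 := K0_conj e3 (B.q (l .t))
    have e5 : B.q (l .t) * ((y * B.q (l .t))⁻¹ * (y' * B.q (l .t))) * (B.q (l .t))⁻¹ = y⁻¹ * y' := by group
    rwa [e5] at e4
  · exact over_K0 Hx hta htb hab ht ha hb h h'

end fibre

end Pool.Agent.Lib.MP_688fd0_co.SQ5.H53.HConn
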