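import Mathlib
import Pool.Agent.Lib.MP_688fd0_co.SQ5.H76.PerB

/-!
MP_688fd0_co, type C2, case FAR-3 (helper53), row REGCONN, the algebra of one run and of one event.

`D` a bundle of parallel walls (76's `Bd`), `nn D K` the column of the wall `K` in steps of `sg = a b`. The node `p = (κ, x)`
is the lift `x` of the strand `κ` at level `s0`. ROW of a node at the block `m`: `row m p = x * pos κ m 0 * sg ^ (- nn (κ - cs))`.
`Rung m p p'`: the white end of `p` in the block `m` is the wall partner of the black end of `p'` in the block `m`.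
RESULTS: `rung_iff` (rung = neighbouring labels and the same row), `row_conn` (all nodes of a row are connected by the rungs of
the block), `T3up`, `T3down`, `T4` (three strands which pass the event, from one component of the run to one component of
the next run).
-/

set_option autoImplicit false

namespace Pool.Agent.Lib.MP_688fd0_co.SQ5.H53.RegC

open Pool.Agent.Lib.MP_688fd0_co.OSF Pool.Agent.Lib.MP_688fd0_co.SQ5.H95 Pool.Agent.Lib.MP_688fd0_co.SQ5.H76 Bd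

/-! ### Columns -/

/-- The column of the wall `K` in steps of `a b`. -/
noncomputable def nn (D : Bd) (K : ℤ) : ℤ := isum D.hw 0 K

theorem nn_succ (D : Bd) (K : ℤ) : nn D (K + 1) = nn D K + D.hw K := isum_succ _ _ _

theorem C_nn (D : Bd) (K s : ℤ) : D.I.C K s = D.I.C 0 s + 2 * nn D K := by
  induction K using Int.induction_on with
  | zero => rw [nn, isum_self]; ring
  | succ K ih => rw [D.hC, ih, nn_succ]; ring
  | pred K ih =>
    have h1 := D.hC (-(K : ℤ) - 1) s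
    have h2 := nn_succ D (-(K : ℤ) - 1)
    rw [sub_add_cancel] at h1 h2
    linarith

/-- The white end of a strand. -/
theorem st_zero_lv (D : Bd) (κ s : ℤ) : D.st κ s 0 = Pat.lv s (D.I.C (κ - D.cs s) s) := by
  unfold Bd.st Pat.si Pat.sc
  rw [D.hb]
  cases h : D.b s
  · have e : D.sp κ s = κ - D.cs s := by unfold Bd.sp; rw [h]; simp
    rw [e]
    simp
  · have e : D.sp κ s + 1 = κ - D.cs s := by unfold Bd.sp; rw [h]; simp
    rw [e]
    simp

/-! ### Words -/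

section words

variable {Q : Type*} [Group Q] {q : L3 → Q}

/-- The step between columns. -/
def sg (q : L3 → Q) : Q := q .a * q .b

theorem stp_row (hq : ∀ i, q i * q i = 1) (D : Bd) (κ s : ℤ) :
    D.stp q κ s = sg q ^ (nn D (κ - D.cs (s + 1)) - nn D (κ - D.cs s)) * LL q (D.b s) := by
  have hi : ∀ i, (q i)⁻¹ = q i := fun i => inv_eq_of_mul_eq_one_left (hq i)
  have hp := D.hpos (D.sp κ s)
  rw [D.stp_eq hq]
  have hcs := D.hcs s
  have hsg : (sg q)⁻¹ = q .b * q .a := by unfold sg; rw [mul_inv_rev, hi, hi]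
  cases h : D.b s
  · -- the letter b
    rw [h] at hcs
    simp only [Bool.false_eq_true, if_false] at hcs
    have e : D.sp κ s = κ - D.cs s := by unfold Bd.sp; rw [h]; simp
    have e1 : κ - D.cs (s + 1) = D.sp κ s + 1 := by rw [hcs, e]; ring
    rw [e1, ← e, nn_succ, add_sub_cancel_left]
    have hK : KK q false = sg q * LL q false := by
      show q .a * q .t = q .a * q .b * (q .b * q .t)
      rw [mul_assoc, ← mul_assoc (q .b), hq, one_mul]
    have key : ∀ n : ℕ, LL q false * ((LL q false)⁻¹ * KK q false) ^ n = sg q ^ n * LL q false := by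
      intro n
      induction n with
      | zero => simp
      | succ n ih =>
        rw [pow_succ, ← mul_assoc, ih, hK, pow_succ]
        group
    obtain ⟨n, hn⟩ : ∃ n, D.hw (D.sp κ s) = n + 1 := ⟨_, (Nat.sub_add_cancel hp).symm⟩
    rw [hn, Nat.add_sub_cancel, zpow_natCast, pow_succ', mul_assoc, ← key n, ← mul_assoc, ← hK]
  · rw [h] at hcs
    simp only [if_true] at hcs
    have e : D.sp κ s + 1 = κ - D.cs s := by unfold Bd.sp; rw [h]; simp
    have e1 : κ - D.cs (s + 1) = D.sp κ s := by rw [hcs]; linarith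
    rw [e1, ← e, nn_succ]
    have hK : KK q true = (sg q)⁻¹ * LL q true := by
      rw [hsg]
      show q .b * q .t = q .b * q .a * (q .a * q .t)
      rw [mul_assoc, ← mul_assoc (q .a), hq, one_mul]
    have key : ∀ n : ℕ, LL q true * ((LL q true)⁻¹ * KK q true) ^ n = (sg q)⁻¹ ^ n * LL q true := by
      intro n
      induction n with
      | zero => simp
      | succ n ih =>
        rw [pow_succ, ← mul_assoc, ih, hK, pow_succ]
        group
    obtain ⟨n, hn⟩ : ∃ n, D.hw (D.sp κ s) = n + 1 := ⟨_, (Nat.sub_add_cancel hp).symm⟩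
    have e2 : nn D (D.sp κ s) - (nn D (D.sp κ s) + (D.hw (D.sp κ s) : ℤ)) = -((n + 1 : ℕ) : ℤ) := by rw [hn]; ring
    rw [e2, hn, Nat.add_sub_cancel, zpow_neg, zpow_natCast, ← inv_pow, pow_succ', mul_assoc, ← key n, ← mul_assoc, ← hK]

variable (q) (D : Bd) (s0 : ℤ)

/-- THE ROW of the node `p` at the block `m`. -/
noncomputable def row (m : ℤ) (p : ℤ × Q) : Q := p.2 * D.pos q s0 p.1 m 0 * sg q ^ (-nn D (p.1 - D.cs (s0 + m)))

/-- The letter of the walls as an element between the rows. -/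
def lam (q : L3 → Q) (D : Bd) (s : ℤ) (n : ℤ) : Q := sg q ^ n * LL q (D.b s) * sg q ^ (-n)

variable {q}

theorem pos_row (hq : ∀ i, q i * q i = 1) (κ m : ℤ) : D.pos q s0 κ (m + 1) 0 = D.pos q s0 κ m 0 *
    (sg q ^ (nn D (κ - D.cs (s0 + m + 1)) - nn D (κ - D.cs (s0 + m))) * LL q (D.b (s0 + m))) := by
  unfold Bd.pos
  rw [gz_succ, stp_row hq, Bd.lw_zero, Bd.lw_zero, mul_one, mul_one]

theorem row_succ (hq : ∀ i, q i * q i = 1) (m : ℤ) (p : ℤ × Q) :
    row q D s0 (m + 1) p = row q D s0 m p * lam q D (s0 + m) (nn D (p.1 - D.cs (s0 + m + 1))) := by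
  unfold row lam
  rw [pos_row D s0 hq, ← add_assoc, zpow_sub, zpow_neg]
  group

/-- RUNG of the block `m`: from the white end of `p` to the black end of `p'`. -/
def Rung (q : L3 → Q) (D : Bd) (s0 m : ℤ) (p p' : ℤ × Q) : Prop :=
  p'.1 = p.1 + (if D.b (s0 + m) = true then 1 else -1) ∧
    p.2 * D.pos q s0 p.1 m 0 * LL q (D.b (s0 + m)) = p'.2 * D.pos q s0 p'.1 (m + 1) 0

/-- The rung condition is: the same row. -/
theorem rung_iff (hq : ∀ i, q i * q i = 1) {m : ℤ} {p p' : ℤ × Q} : Rung q D s0 m p p' ↔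
    p'.1 = p.1 + (if D.b (s0 + m) = true then 1 else -1) ∧ row q D s0 m p = row q D s0 m p' := by
  refine and_congr_right fun h => ?_
  have e : p'.1 - D.cs (s0 + m + 1) = p.1 - D.cs (s0 + m) := by rw [h, D.hcs]; ring
  rw [pos_row D s0 hq, e]
  unfold row
  rw [zpow_sub]
  constructor
  · intro h1
    have h2 := congrArg (fun z => z * (LL q (D.b (s0 + m)))⁻¹ * sg q ^ (-nn D (p.1 - D.cs (s0 + m)))) h1
    simp only [mul_inv_cancel_right] at h2
    rw [h2]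
    group
  · intro h1
    have h2 := congrArg (fun z => z * sg q ^ (nn D (p.1 - D.cs (s0 + m))) * LL q (D.b (s0 + m))) h1
    have h3 : p.2 * D.pos q s0 p.1 m 0 * sg q ^ (-nn D (p.1 - D.cs (s0 + m))) * sg q ^ (nn D (p.1 - D.cs (s0 + m))) *
        LL q (D.b (s0 + m)) = p.2 * D.pos q s0 p.1 m 0 * LL q (D.b (s0 + m)) := by group
    simp only [h3] at h2
    rw [h2]
    group

end words

/-! ### Nodes -/

section nodes

universe u v

variable {Q : Type u} [Group Q] {B : Lb.{u, v} Q} {l : L3 → B.L} {L : AddSubgroup (ℤ × ℤ)} (c : Cov B l L)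
  (hi : ∀ i, B.inv (l i) = l i)

theorem hqq (hi : ∀ i, B.inv (l i) = l i) (i : L3) : qq B l i * qq B l i = 1 := q_sq hi i

include hi in
/-- Two columns. -/
theorem over_two {x : Q} {s C : ℤ} (hp : (C - s) % 2 = 0) :
    c.Over (x * sg (qq B l)) (Pat.lv s (C + 2)) ↔ c.Over x (Pat.lv s C) := by
  have e1 : nb (Pat.lv s C) .a = Pat.lv s (C + 1) := Pat.nb_lv_a hp
  have e2 : nb (Pat.lv s (C + 1)) .b = Pat.lv s (C + 2) := by
    rw [Pat.nb_lv_b' (by omega)]
    congr 1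
    ring
  have e3 : x * sg (qq B l) = x * B.q (l .a) * B.q (l .b) := by
    unfold sg qq
    rw [mul_assoc]
  rw [e3, ← e2, c.over_step_iff hi, ← e1, c.over_step_iff hi]

include hi in
/-- Any even number of columns. -/
theorem over_sg {x : Q} {s C : ℤ} (hp : (C - s) % 2 = 0) (k : ℤ) :
    c.Over (x * sg (qq B l) ^ k) (Pat.lv s (C + 2 * k)) ↔ c.Over x (Pat.lv s C) := by
  induction k using Int.induction_on with
  | zero => simp
  | succ k ih =>
    rw [← ih, zpow_add_one, ← mul_assoc]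
    have e : C + 2 * ((k : ℤ) + 1) = C + 2 * k + 2 := by ring
    rw [e]
    exact over_two c hi (by omega)
  | pred k ih =>
    have h := over_two c hi (x := x * sg (qq B l) ^ (-(k : ℤ) - 1)) (s := s) (C := C + 2 * (-(k : ℤ) - 1)) (by omega)
    rw [mul_assoc, ← zpow_add_one, sub_add_cancel] at h
    have e : C + 2 * (-(k : ℤ) - 1) + 2 = C + 2 * -(k : ℤ) := by ring
    rw [e] at h
    exact h.symm.trans ih

/-- The nodes with labels in `[k0, k1]`. -/
def Nod (D : Bd) (s0 k0 k1 : ℤ) (p : ℤ × Q) : Prop := k0 ≤ p.1 ∧ p.1 ≤ k1 ∧ c.Over p.2 (D.st p.1 s0 0)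

/-- The node with the label `κ` in the row `y` of the block `m`. -/
noncomputable def mk (q : L3 → Q) (D : Bd) (s0 m : ℤ) (y : Q) (κ : ℤ) : ℤ × Q :=
  (κ, y * sg q ^ nn D (κ - D.cs (s0 + m)) * (D.pos q s0 κ m 0)⁻¹)

theorem row_mk (q : L3 → Q) (D : Bd) (s0 m : ℤ) (y : Q) (κ : ℤ) : row q D s0 m (mk q D s0 m y κ) = y := by
  unfold row mk
  group

theorem mk_row (q : L3 → Q) (D : Bd) (s0 m : ℤ) (p : ℤ × Q) : mk q D s0 m (row q D s0 m p) p.1 = p := by
  unfold row mk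
  refine Prod.ext rfl ?_
  group

theorem eq_of_row (q : L3 → Q) (D : Bd) (s0 m : ℤ) {p p' : ℤ × Q} (h1 : p.1 = p'.1)
    (h2 : row q D s0 m p = row q D s0 m p') : p = p' := by
  rw [← mk_row q D s0 m p, ← mk_row q D s0 m p', h1, h2]

variable (D : Bd) {s0 : ℤ}

include hi in
/-- The element of the row over the wall `K`. -/
theorem over_row_iff (m : ℤ) (y : Q) (K : ℤ) :
    c.Over (y * sg (qq B l) ^ nn D K) (Pat.lv (s0 + m) (D.I.C K (s0 + m))) ↔
      c.Over y (Pat.lv (s0 + m) (D.I.C 0 (s0 + m))) := by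
  rw [C_nn]
  exact over_sg c hi (by have := D.I.par 0 (s0 + m); exact this) _

include hi in
theorem over_mk_iff (m : ℤ) (y : Q) (κ : ℤ) : c.Over (mk (qq B l) D s0 m y κ).2 (D.st κ s0 0) ↔
    c.Over y (Pat.lv (s0 + m) (D.I.C 0 (s0 + m))) := by
  rw [← c.over_pos hi D s0 κ m 0, st_zero_lv, ← over_row_iff c hi D m y (κ - D.cs (s0 + m))]
  have e : (mk (qq B l) D s0 m y κ).2 * D.pos (qq B l) s0 κ m 0 = y * sg (qq B l) ^ nn D (κ - D.cs (s0 + m)) := by
    unfold mk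
    exact inv_mul_cancel_right _ _
  rw [e]

include hi in
/-- All lifts of the row are nodes. -/
theorem nod_mk {k0 k1 : ℤ} {m : ℤ} {p : ℤ × Q} (hp : Nod c D s0 k0 k1 p) {κ : ℤ} (h0 : k0 ≤ κ) (h1 : κ ≤ k1) :
    Nod c D s0 k0 k1 (mk (qq B l) D s0 m (row (qq B l) D s0 m p) κ) := by
  refine ⟨h0, h1, (over_mk_iff c hi D m _ κ).2 ?_⟩
  have h := (over_mk_iff c hi D (s0 := s0) m (row (qq B l) D s0 m p) p.1).1
  rw [mk_row] at h
  exact h hp.2.2

/-- RUNG RELATION of the nodes, blocks in the set `M`. -/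
def RR (q : L3 → Q) (s0 k0 k1 : ℤ) (M : ℤ → Prop) (p p' : ℤ × Q) : Prop :=
  Nod c D s0 k0 k1 p ∧ Nod c D s0 k0 k1 p' ∧ ∃ m, M m ∧ (Rung q D s0 m p p' ∨ Rung q D s0 m p' p)

variable {D}

theorem RR.symm {q : L3 → Q} {k0 k1 : ℤ} {M : ℤ → Prop} {p p' : ℤ × Q} (h : RR c D q s0 k0 k1 M p p') :
    RR c D q s0 k0 k1 M p' p :=
  ⟨h.2.1, h.1, by obtain ⟨m, hm, h3⟩ := h.2.2; exact ⟨m, hm, h3.symm⟩⟩

/-- Connected by rungs. -/
def Con (q : L3 → Q) (D : Bd) (s0 k0 k1 : ℤ) (M : ℤ → Prop) : ℤ × Q → ℤ × Q → Prop :=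
  Relation.ReflTransGen (RR c D q s0 k0 k1 M)

theorem Con.symm {q : L3 → Q} {k0 k1 : ℤ} {M : ℤ → Prop} {p p' : ℤ × Q} (h : Con c q D s0 k0 k1 M p p') :
    Con c q D s0 k0 k1 M p' p := by
  induction h with
  | refl => exact Relation.ReflTransGen.refl
  | tail _ h ih => exact Relation.ReflTransGen.head (RR.symm c h) ih

theorem Con.nod {q : L3 → Q} {k0 k1 : ℤ} {M : ℤ → Prop} {p p' : ℤ × Q} (h : Con c q D s0 k0 k1 M p p')
    (hp : Nod c D s0 k0 k1 p) : Nod c D s0 k0 k1 p' := by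
  induction h with
  | refl => exact hp
  | tail _ h _ => exact h.2.1

include hi in
/-- Neighbouring labels of one row. -/
theorem rr_of_row {k0 k1 : ℤ} {M : ℤ → Prop} {m : ℤ} (hm : M m) {p p' : ℤ × Q} (hp : Nod c D s0 k0 k1 p)
    (hp' : Nod c D s0 k0 k1 p') (h1 : p'.1 = p.1 + 1) (hr : row (qq B l) D s0 m p = row (qq B l) D s0 m p') :
    RR c D (qq B l) s0 k0 k1 M p p' := by
  refine ⟨hp, hp', m, hm, ?_⟩
  cases hb : D.b (s0 + m)
  · refine Or.inr ((rung_iff D s0 (hqq hi)).2 ⟨?_, hr.symm⟩)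
    rw [hb, h1]
    simp
  · refine Or.inl ((rung_iff D s0 (hqq hi)).2 ⟨?_, hr⟩)
    rw [hb, h1]
    simp

include hi in
/-- ROW CONNECTIVITY: all nodes of a row are connected. -/
theorem row_conn {k0 k1 : ℤ} {M : ℤ → Prop} {m : ℤ} (hm : M m) {p p' : ℤ × Q} (hp : Nod c D s0 k0 k1 p)
    (hp' : Nod c D s0 k0 k1 p') (hr : row (qq B l) D s0 m p = row (qq B l) D s0 m p') :
    Con c (qq B l) D s0 k0 k1 M p p' := by
  have key : ∀ n : ℕ, ∀ {p p' : ℤ × Q}, Nod c D s0 k0 k1 p → Nod c D s0 k0 k1 p' →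
      row (qq B l) D s0 m p = row (qq B l) D s0 m p' → p'.1 = p.1 + n → Con c (qq B l) D s0 k0 k1 M p p' := by
    intro n
    induction n with
    | zero =>
      intro p p' _ _ hr h
      have : p = p' := eq_of_row (qq B l) D s0 m (by rw [h]; simp) hr
      rw [this]
      exact Relation.ReflTransGen.refl
    | succ n ih =>
      intro p p' hp hp' hr h
      push_cast at h
      have h1 : Nod c D s0 k0 k1 (mk (qq B l) D s0 m (row (qq B l) D s0 m p) (p.1 + n)) :=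
        nod_mk c hi D hp (by have := hp.1; omega) (by have := hp'.2.1; omega)
      refine Relation.ReflTransGen.tail (ih hp h1 (row_mk _ _ _ _ _ _).symm rfl) ?_
      refine rr_of_row c hi hm h1 hp' ?_ ?_
      · rw [h]
        show _ = p.1 + n + 1
        ring
      · rw [row_mk, hr]
  rcases le_total p.1 p'.1 with h | h
  · exact key (p'.1 - p.1).toNat hp hp' hr (by omega)
  · exact Con.symm c (key (p.1 - p'.1).toNat hp' hp hr.symm (by omega))

/-! ### The period -/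

/-- One period higher. -/
theorem row_per (q : L3 → Q) {P : ℤ} (hD : D.Per P) {U : Q} {p : ℤ × Q} (hU : gz (D.stp q p.1) s0 P = U)
    (hx : p.2 * U = U * p.2) (m : ℤ) : row q D s0 (m + P) p = U * row q D s0 m p := by
  unfold row
  rw [hD.pos, hU, ← add_assoc, hD.cs]
  simp only [← mul_assoc]
  rw [hx]

theorem row_per_nat (q : L3 → Q) {P : ℤ} (hD : D.Per P) {U : Q} {p : ℤ × Q} (hU : gz (D.stp q p.1) s0 P = U)
    (hx : p.2 * U = U * p.2) (m : ℤ) (j : ℕ) : row q D s0 (m + P * j) p = U ^ j * row q D s0 m p := by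
  induction j with
  | zero => simp
  | succ j ih =>
    have e : m + P * ((j + 1 : ℕ) : ℤ) = m + P * j + P := by push_cast; ring
    rw [e, row_per q hD hU hx, ih, pow_succ', mul_assoc]

/-! ### The event -/

/-- The event between two runs: the wall `K` goes on, the label `κ` becomes `κ + dl`. -/
structure Evt (L : AddSubgroup (ℤ × ℤ)) (D D' : Bd) (s0 s0' : ℤ) (E : ℕ) (dl : ℤ) : Prop where
  hw : D'.hw = D.hw
  cs : D'.cs s0' = D.cs (s0 + (E + 1)) + dl
  st : ∀ κ, EqL L (D.st κ (s0 + (E + 1)) 0) (D'.st (κ + dl) s0' 0)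

/-- The node after the event. -/
def pass (q : L3 → Q) (D : Bd) (s0 : ℤ) (E : ℕ) (dl : ℤ) (p : ℤ × Q) : ℤ × Q :=
  (p.1 + dl, p.2 * D.pos q s0 p.1 (E + 1) 0)

/-- The node before the event. -/
def unpass (q : L3 → Q) (D : Bd) (s0 : ℤ) (E : ℕ) (dl : ℤ) (p : ℤ × Q) : ℤ × Q :=
  (p.1 - dl, p.2 * (D.pos q s0 (p.1 - dl) (E + 1) 0)⁻¹)

theorem pass_unpass (q : L3 → Q) (D : Bd) (s0 : ℤ) (E : ℕ) (dl : ℤ) (p : ℤ × Q) :
    pass q D s0 E dl (unpass q D s0 E dl p) = p := by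
  unfold pass unpass
  refine Prod.ext (sub_add_cancel _ _) ?_
  simp

theorem pass_inj (q : L3 → Q) (D : Bd) (s0 : ℤ) (E : ℕ) (dl : ℤ) : Function.Injective (pass q D s0 E dl) := by
  intro p p' h
  have h1 : p.1 + dl = p'.1 + dl := congrArg Prod.fst h
  have h1' : p.1 = p'.1 := by omega
  have h2 : p.2 * D.pos q s0 p.1 (E + 1) 0 = p'.2 * D.pos q s0 p'.1 (E + 1) 0 := congrArg Prod.snd h
  rw [h1'] at h2
  exact Prod.ext h1' (mul_right_cancel h2)

variable {D' : Bd} {s0' : ℤ} {E : ℕ} {dl : ℤ} (ev : Evt L D D' s0 s0' E dl)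

include ev in
theorem row_pass (q : L3 → Q) (p : ℤ × Q) : row q D' s0' 0 (pass q D s0 E dl p) = row q D s0 (E + 1) p := by
  unfold row pass
  have e : p.1 + dl - D'.cs (s0' + 0) = p.1 - D.cs (s0 + (E + 1)) := by rw [add_zero, ev.cs]; ring
  have e2 : nn D' = nn D := by unfold nn; rw [ev.hw]
  simp only [D'.pos_zero, mul_one]
  rw [e, e2]

include ev hi in
theorem nod_pass {k0 k1 k0' k1' : ℤ} {p : ℤ × Q} (hp : Nod c D s0 k0 k1 p) (h0 : k0' ≤ p.1 + dl) (h1 : p.1 + dl ≤ k1') :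
    Nod c D' s0' k0' k1' (pass (qq B l) D s0 E dl p) :=
  ⟨h0, h1, ((c.over_pos hi D s0 p.1 (E + 1) 0).2 hp.2.2).of_eqL (ev.st p.1)⟩

include ev hi in
theorem nod_unpass {k0 k1 k0' k1' : ℤ} {p : ℤ × Q} (hp : Nod c D' s0' k0' k1' p) (h0 : k0 ≤ p.1 - dl)
    (h1 : p.1 - dl ≤ k1) : Nod c D s0 k0 k1 (unpass (qq B l) D s0 E dl p) := by
  refine ⟨h0, h1, (c.over_pos hi D s0 (p.1 - dl) (E + 1) 0).1 ?_⟩
  have h := (ev.st (p.1 - dl)).symm
  rw [sub_add_cancel] at h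
  have h2 : (unpass (qq B l) D s0 E dl p).2 * D.pos (qq B l) s0 (p.1 - dl) (E + 1) 0 = p.2 := inv_mul_cancel_right _ _
  rw [h2]
  exact hp.2.2.of_eqL h

/-- The data of two consecutive runs: `M`, `M'` = the blocks of the rungs, `m1`, `m1'` = the blocks of the rows which are used. -/
structure Two (q : L3 → Q) (D D' : Bd) (s0 s0' : ℤ) (E : ℕ) (k0 k1 k0' k1' : ℤ) (M M' : ℤ → Prop) (Un Un' : ℤ → Prop)
    (m1 m1' : ℤ) (z z' : Q) : Prop where
  hm : M m1
  hm' : M' m1'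
  /-- the row at the event -/
  hz : ∀ p, Nod c D s0 k0 k1 p → Un p.1 → row q D s0 (E + 1) p = z * row q D s0 m1 p
  hz' : ∀ p, Nod c D' s0' k0' k1' p → Un' p.1 → row q D' s0' m1' p = z' * row q D' s0' 0 p

/-- The rows correspond. -/
def Cor (q : L3 → Q) (D D' : Bd) (s0 s0' : ℤ) (m1 m1' : ℤ) (z z' : Q) (p p' : ℤ × Q) : Prop :=
  row q D' s0' m1' p' = z' * (z * row q D s0 m1 p)

variable {c} {k0 k1 k0' k1' : ℤ} {M M' : ℤ → Prop} {Un Un' : ℤ → Prop} {m1 m1' : ℤ} {z z' : Q}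
  (T : Two c (qq B l) D D' s0 s0' E k0 k1 k0' k1' M M' Un Un' m1 m1' z z')

/-- Good labels: they pass the event, with known rows. -/
def Gd (k0 k1 k0' k1' dl : ℤ) (Un Un' : ℤ → Prop) (κ : ℤ) : Prop :=
  k0 ≤ κ ∧ κ ≤ k1 ∧ k0' ≤ κ + dl ∧ κ + dl ≤ k1' ∧ Un κ ∧ Un' (κ + dl)

include ev T hi in
/-- The strand with the label `κ` which joins two corresponding rows. -/
theorem one_arc {p p' : ℤ × Q} (hp : Nod c D s0 k0 k1 p) (hp' : Nod c D' s0' k0' k1' p')
    (h : Cor (qq B l) D D' s0 s0' m1 m1' z z' p p') {κ : ℤ} (hκ : Gd k0 k1 k0' k1' dl Un Un' κ) :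
    ∃ r : ℤ × Q, r.1 = κ ∧ Nod c D s0 k0 k1 r ∧ Nod c D' s0' k0' k1' (pass (qq B l) D s0 E dl r) ∧
      Con c (qq B l) D s0 k0 k1 M p r ∧ Con c (qq B l) D' s0' k0' k1' M' p' (pass (qq B l) D s0 E dl r) := by
  have h1 := nod_mk c hi D (m := m1) hp hκ.1 hκ.2.1
  have h2 : Nod c D' s0' k0' k1' (pass (qq B l) D s0 E dl (mk (qq B l) D s0 m1 (row (qq B l) D s0 m1 p) κ)) :=
    nod_pass c hi ev h1 hκ.2.2.1 hκ.2.2.2.1
  refine ⟨_, rfl, h1, h2, row_conn c hi T.hm hp h1 (row_mk _ _ _ _ _ _).symm, row_conn c hi T.hm' hp' h2 ?_⟩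
  rw [h, T.hz' _ h2 hκ.2.2.2.2.2, row_pass ev, T.hz _ h1 hκ.2.2.2.2.1, row_mk]

include ev T in
/-- A passing strand. -/
theorem cor_pass {p : ℤ × Q} (hp : Nod c D s0 k0 k1 p) (hp' : Nod c D' s0' k0' k1' (pass (qq B l) D s0 E dl p))
    (h1 : Un p.1) (h2 : Un' (p.1 + dl)) : Cor (qq B l) D D' s0 s0' m1 m1' z z' p (pass (qq B l) D s0 E dl p) := by
  unfold Cor
  rw [T.hz' _ hp' h2, row_pass ev, T.hz _ hp h1]

include ev T hi in
/-- Upwards. -/
theorem cor_up {p : ℤ × Q} (hp : Nod c D s0 k0 k1 p) {κ : ℤ} (hκ : Gd k0 k1 k0' k1' dl Un Un' κ) :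
    ∃ p', Nod c D' s0' k0' k1' p' ∧ Cor (qq B l) D D' s0 s0' m1 m1' z z' p p' := by
  have h1 := nod_mk c hi D (m := m1) hp hκ.1 hκ.2.1
  have h2 : Nod c D' s0' k0' k1' (pass (qq B l) D s0 E dl (mk (qq B l) D s0 m1 (row (qq B l) D s0 m1 p) κ)) :=
    nod_pass c hi ev h1 hκ.2.2.1 hκ.2.2.2.1
  refine ⟨_, h2, ?_⟩
  have h3 := cor_pass ev T h1 h2 hκ.2.2.2.2.1 hκ.2.2.2.2.2
  unfold Cor at h3 ⊢
  rw [h3, row_mk]

include ev T hi in
/-- Downwards. -/
theorem cor_down {p' : ℤ × Q} (hp' : Nod c D' s0' k0' k1' p') {κ : ℤ} (hκ : Gd k0 k1 k0' k1' dl Un Un' κ) :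
    ∃ p, Nod c D s0 k0 k1 p ∧ Cor (qq B l) D D' s0 s0' m1 m1' z z' p p' := by
  have h1 := nod_mk c hi D' (m := m1') hp' hκ.2.2.1 hκ.2.2.2.1
  have e : κ + dl - dl = κ := add_sub_cancel_right _ _
  have h2 : Nod c D s0 k0 k1 (unpass (qq B l) D s0 E dl (mk (qq B l) D' s0' m1' (row (qq B l) D' s0' m1' p') (κ + dl))) :=
    nod_unpass c hi ev h1 (by show k0 ≤ κ + dl - dl; rw [e]; exact hκ.1) (by show κ + dl - dl ≤ k1; rw [e]; exact hκ.2.1)
  refine ⟨_, h2, ?_⟩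
  have h3 := cor_pass (p := unpass (qq B l) D s0 E dl (mk (qq B l) D' s0' m1' (row (qq B l) D' s0' m1' p') (κ + dl))) ev T h2
    (by rw [pass_unpass]; exact h1) (by show Un (κ + dl - dl); rw [e]; exact hκ.2.2.2.2.1)
    (by show Un' (κ + dl - dl + dl); rw [e]; exact hκ.2.2.2.2.2)
  rw [pass_unpass] at h3
  unfold Cor at h3 ⊢
  rw [← h3, row_mk]

end nodes

/-! ### The rung graphs -/

section graph

universe u v

variable {Q : Type u} [Group Q] {B : Lb.{u, v} Q} {l : L3 → B.L} {L : AddSubgroup (ℤ × ℤ)} {c : Cov B l L}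
  (hi : ∀ i, B.inv (l i) = l i)

/-- The strands with labels in `[k0, k1]` and a graph on them in which the rungs of the blocks in `M` are joined. -/
structure Grf (c : Cov B l L) (D : Bd) (s0 κ0 κ1 k0 k1 : ℤ) (M : ℤ → Prop) (V : Set (Sd c D s0 κ0 κ1))
    (Λ : SimpleGraph V) : Prop where
  lo : κ0 ≤ k0
  hi : k1 ≤ κ1
  mem : ∀ s, s ∈ V ↔ k0 ≤ s.1.1 ∧ s.1.1 ≤ k1
  rung : ∀ (s s' : V) (m : ℤ), M m → Rung (qq B l) D s0 m s.1.1 s'.1.1 → Λ.Reachable s s'

namespace Grf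

variable {D : Bd} {s0 κ0 κ1 k0 k1 : ℤ} {M : ℤ → Prop} {V : Set (Sd c D s0 κ0 κ1)} {Λ : SimpleGraph V}
  (g : Grf c D s0 κ0 κ1 k0 k1 M V Λ)
include g

theorem nod (s : V) : Nod c D s0 k0 k1 s.1.1 := ⟨((g.mem _).1 s.2).1, ((g.mem _).1 s.2).2, s.1.2.2.2⟩

theorem exists_node {p : ℤ × Q} (hp : Nod c D s0 k0 k1 p) : ∃ s : V, s.1.1 = p :=
  ⟨⟨⟨p, g.lo.trans hp.1, hp.2.1.trans g.hi, hp.2.2⟩, (g.mem _).2 ⟨hp.1, hp.2.1⟩⟩, rfl⟩

theorem reach {s s' : V} (h : Con c (qq B l) D s0 k0 k1 M s.1.1 s'.1.1) : Λ.Reachable s s' := by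
  have key : ∀ p : ℤ × Q, Con c (qq B l) D s0 k0 k1 M s.1.1 p → ∀ s' : V, s'.1.1 = p → Λ.Reachable s s' := by
    intro p h
    induction h with
    | refl =>
      intro s' hs'
      have : s = s' := Subtype.ext (Subtype.ext hs'.symm)
      rw [this]
    | tail _ h ih =>
      intro s' hs'
      obtain ⟨h1, h2, m, hm, h3⟩ := h
      obtain ⟨r, hr⟩ := g.exists_node h1
      refine (ih r hr).trans ?_
      rw [← hr, ← hs'] at h3
      rcases h3 with h3 | h3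
      · exact g.rung r s' m hm h3
      · exact (g.rung s' r m hm h3).symm
  exact key _ h s' rfl

end Grf

variable {D D' : Bd} {s0 s0' : ℤ} {E : ℕ} {dl : ℤ} (ev : Evt L D D' s0 s0' E dl) {k0 k1 k0' k1' : ℤ}
  {M M' : ℤ → Prop} {Un Un' : ℤ → Prop} {m1 m1' : ℤ} {z z' : Q}
  (T : Two c (qq B l) D D' s0 s0' E k0 k1 k0' k1' M M' Un Un' m1 m1' z z')
  {κ0 κ1 κ0' κ1' : ℤ} {V : Set (Sd c D s0 κ0 κ1)} {Λ : SimpleGraph V} {V' : Set (Sd c D' s0' κ0' κ1')}
  {Λ' : SimpleGraph V'} (g : Grf c D s0 κ0 κ1 k0 k1 M V Λ) (g' : Grf c D' s0' κ0' κ1' k0' k1' M' V' Λ')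

/-- THREE ARCS: three strands of the component of `s` which pass the event into the component of `s'`. -/
def Arc3 (q : L3 → Q) (E : ℕ) (dl : ℤ) (Λ : SimpleGraph V) (Λ' : SimpleGraph V') (s : V) (s' : V') : Prop :=
  ∃ (p : Fin 3 → V) (p' : Fin 3 → V'), Function.Injective p ∧ Function.Injective p' ∧
    ∀ i, Λ.Reachable s (p i) ∧ Λ'.Reachable s' (p' i) ∧ (p' i).1.1 = pass q D s0 E dl (p i).1.1

include ev T g g' hi in
theorem arc3_of_cor {s : V} {s' : V'} (h : Cor (qq B l) D D' s0 s0' m1 m1' z z' s.1.1 s'.1.1) {κ : Fin 3 → ℤ}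
    (hκ : Function.Injective κ) (hg : ∀ i, Gd k0 k1 k0' k1' dl Un Un' (κ i)) :
    Arc3 (qq B l) E dl Λ Λ' s s' := by
  choose r h1 h2 h3 h4 h5 using fun i => one_arc hi ev T (g.nod s) (g'.nod s') h (hg i)
  choose p hp using fun i => g.exists_node (h2 i)
  choose p' hp' using fun i => g'.exists_node (h3 i)
  refine ⟨p, p', fun i j hij => ?_, fun i j hij => ?_, fun i => ⟨g.reach ?_, g'.reach ?_, ?_⟩⟩
  · apply hκ
    rw [← h1 i, ← h1 j, ← hp i, ← hp j, hij]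
  · apply hκ
    have h6 : pass (qq B l) D s0 E dl (r i) = pass (qq B l) D s0 E dl (r j) := by rw [← hp' i, ← hp' j, hij]
    rw [← h1 i, ← h1 j, pass_inj _ _ _ _ _ h6]
  · rw [hp i]; exact h4 i
  · rw [hp' i]; exact h5 i
  · rw [hp i, hp' i]

include ev T g g' hi in
/-- T3 upwards: every component of the run is joined to a component of the next run. -/
theorem T3up {κ : Fin 3 → ℤ} (hκ : Function.Injective κ) (hg : ∀ i, Gd k0 k1 k0' k1' dl Un Un' (κ i)) (s : V) :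
    ∃ s' : V', Arc3 (qq B l) E dl Λ Λ' s s' := by
  obtain ⟨p', h1, h2⟩ := cor_up hi ev T (g.nod s) (hg 0)
  obtain ⟨s', rfl⟩ := g'.exists_node h1
  exact ⟨s', arc3_of_cor hi ev T g g' h2 hκ hg⟩

include ev T g g' hi in
/-- T3 downwards: every component of the next run is joined to a component of the run. -/
theorem T3down {κ : Fin 3 → ℤ} (hκ : Function.Injective κ) (hg : ∀ i, Gd k0 k1 k0' k1' dl Un Un' (κ i)) (s' : V') :
    ∃ s : V, Arc3 (qq B l) E dl Λ Λ' s s' := by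
  obtain ⟨p, h1, h2⟩ := cor_down hi ev T (g'.nod s') (hg 0)
  obtain ⟨s, rfl⟩ := g.exists_node h1
  exact ⟨s, arc3_of_cor hi ev T g g' h2 hκ hg⟩

include ev T g g' hi in
/-- T4: the components of a strand which passes the event. -/
theorem T4 {κ : Fin 3 → ℤ} (hκ : Function.Injective κ) (hg : ∀ i, Gd k0 k1 k0' k1' dl Un Un' (κ i)) {s : V} {s' : V'}
    (h : s'.1.1 = pass (qq B l) D s0 E dl s.1.1) (h1 : Un s.1.1.1) (h2 : Un' s'.1.1.1) :
    Arc3 (qq B l) E dl Λ Λ' s s' := by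
  refine arc3_of_cor hi ev T g g' ?_ hκ hg
  have h3 := g'.nod s'
  rw [h] at h3 h2 ⊢
  exact cor_pass ev T (g.nod s) h3 h1 h2

end graph

end Pool.Agent.Lib.MP_688fd0_co.SQ5.H53.RegC
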