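import Pool.Agent.Lib.MP_688fd0_co.SQ5.H53.RegG
import Pool.Agent.Lib.MP_688fd0_co.SQ5.H20.Rung

/-!
MP_688fd0_co, type C2, case FAR-3 (helper53), row REGCONN: RegG for helper20's rung graph `Lam`. `VL` = the strands with labels
in `[v0, v1]`, `LamV` = the rung graph on them. RESULTS: `grf_lam`, `up_lam`, `down_lam`, `pass_lam`; `conn_cyc` (abstract: all
nodes of all runs are equivalent if all nodes of one run are).
-/

set_option autoImplicit false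

namespace Pool.Agent.Lib.MP_688fd0_co.SQ5.H53.RegC

open Pool.Agent.Lib.MP_688fd0_co.OSF Pool.Agent.Lib.MP_688fd0_co.SQ5.H95 Pool.Agent.Lib.MP_688fd0_co.SQ5.H76 Bd

universe u v

variable {L : AddSubgroup (ℤ × ℤ)} {Q : Type u} [Group Q] {B : Lb.{u, v} Q} {l : L3 → B.L}

/-- The strands with labels in `[v0, v1]`. -/
def VL (c : Cov B l L) (D : Bd) (s0 κ0 κ1 v0 v1 : ℤ) : Set (Sd c D s0 κ0 κ1) := {s | v0 ≤ s.1.1 ∧ s.1.1 ≤ v1}

/-- The rung graph on the strands with labels in `[v0, v1]`. -/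
def LamV (c : Cov B l L) (D : Bd) (s0 κ0 κ1 v0 v1 : ℤ) : SimpleGraph (VL c D s0 κ0 κ1 v0 v1) :=
  (H20.Lam c D s0 κ0 κ1 v0 v1).comap Subtype.val

/-- The two forms of the rung condition. -/
theorem rung_H20 {c : Cov B l L} {D : Bd} {s0 κ0 κ1 : ℤ} {m : ℤ} {s s' : Sd c D s0 κ0 κ1} :
    H20.Rung m s s' ↔ Rung (qq B l) D s0 m s.1 s'.1 := by
  unfold H20.Rung Rung
  rw [H20.ps_eq, H20.ps_eq]
  rfl

theorem grf_lam (c : Cov B l L) (D : Bd) (s0 : ℤ) {κ0 κ1 v0 v1 : ℤ} (h0 : κ0 ≤ v0) (h1 : v1 ≤ κ1) (M : ℤ → Prop) :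
    Grf c D s0 κ0 κ1 v0 v1 M (VL c D s0 κ0 κ1 v0 v1) (LamV c D s0 κ0 κ1 v0 v1) where
  lo := h0
  hi := h1
  mem _ := Iff.rfl
  rung s s' m _ h := by
    refine SimpleGraph.Adj.reachable ?_
    show (H20.Lam c D s0 κ0 κ1 v0 v1).Adj s.1 s'.1
    exact (rung_H20.2 h).adj s.2 s'.2

section main

variable {M R : ℕ} {dc : ℕ → ℤ} {spc : ℕ → Prop} {G : ℤ} {g : Geo L M R dc spc G} {m0 : ℕ} {hw : ℤ → ℕ}
  (H : Geo.Mn g m0 hw) {c : Cov B l L} (hi : ∀ i, B.inv (l i) = l i) {e : ℕ} {U : Q} (hU : PerU c e U) (he : 0 < e)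
  {z z' x : ℤ} (hz : z + 1 = z' + x * g.w.Et) {κ0 κ1 κ0' κ1' v0 v1 : ℤ} (h0 : κ0 ≤ v0) (h1 : v1 ≤ κ1) (h0' : κ0' ≤ v0)
  (h1' : v1 ≤ κ1') (hk : v0 + 4 ≤ v1)

include H hi hU he hz h0 h1 h0' h1' hk

/-- T3 upwards: every component of the run `z` is joined by three arcs to a component of the next run. -/
theorem up_lam (s : VL c (H.bd z) (g.rs z) κ0 κ1 v0 v1) : ∃ s' : VL c (H.bd z') (g.rs z') κ0' κ1' v0 v1,
    Arc3 (qq B l) (g.rE z) (dle g z) (LamV c (H.bd z) (g.rs z) κ0 κ1 v0 v1) (LamV c (H.bd z') (g.rs z') κ0' κ1' v0 v1)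
      s s' :=
  T3up_main H hi hU he hz (a := 0) (a' := 0) (Nat.zero_le _) hk (grf_lam c _ _ h0 h1 _) (grf_lam c _ _ h0' h1' _) s

/-- T3 downwards: every component of the next run is joined by three arcs to a component of the run `z`. -/
theorem down_lam (s' : VL c (H.bd z') (g.rs z') κ0' κ1' v0 v1) : ∃ s : VL c (H.bd z) (g.rs z) κ0 κ1 v0 v1,
    Arc3 (qq B l) (g.rE z) (dle g z) (LamV c (H.bd z) (g.rs z) κ0 κ1 v0 v1) (LamV c (H.bd z') (g.rs z') κ0' κ1' v0 v1)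
      s s' :=
  T3down_main H hi hU he hz (a := 0) (a' := 0) (Nat.zero_le _) hk (grf_lam c _ _ h0 h1 _) (grf_lam c _ _ h0' h1' _) s'

/-- T4: the components of a strand which passes the event. -/
theorem pass_lam {s : VL c (H.bd z) (g.rs z) κ0 κ1 v0 v1} {s' : VL c (H.bd z') (g.rs z') κ0' κ1' v0 v1}
    (h : s'.1.1 = pass (qq B l) (H.bd z) (g.rs z) (g.rE z) (dle g z) s.1.1) :
    Arc3 (qq B l) (g.rE z) (dle g z) (LamV c (H.bd z) (g.rs z) κ0 κ1 v0 v1) (LamV c (H.bd z') (g.rs z') κ0' κ1' v0 v1)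
      s s' :=
  T4_main H hi hU he hz (a := 0) (a' := 0) (Nat.zero_le _) hk (grf_lam c _ _ h0 h1 _) (grf_lam c _ _ h0' h1' _) h

end main

/-! ### All runs -/

/-- Cyclic induction: an equivalence relation on the nodes of the runs `0 .. n - 1`; every node of the run `z'` is equivalent to
a node of the run before; all nodes of one run are equivalent. Then all nodes are equivalent. -/
theorem conn_cyc {n : ℕ} {N : Fin n → Type*} (R : (Σ z, N z) → (Σ z, N z) → Prop) (hR : Equivalence R)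
    (dn : ∀ z z' : Fin n, ((z : ℕ) + 1) % n = z' → ∀ s' : N z', ∃ s : N z, R ⟨z, s⟩ ⟨z', s'⟩) (z0 : Fin n)
    (h0 : ∀ s s' : N z0, R ⟨z0, s⟩ ⟨z0, s'⟩) (a b : Σ z, N z) : R a b := by
  have hn : 0 < n := lt_of_le_of_lt (Nat.zero_le _) z0.2
  have key : ∀ k : ℕ, ∀ z : Fin n, ((z0 : ℕ) + k) % n = z → ∀ s : N z, ∃ s0 : N z0, R ⟨z0, s0⟩ ⟨z, s⟩ := by
    intro k
    induction k with
    | zero =>
      intro z hz s
      have : z0 = z := Fin.ext (by rw [Nat.add_zero, Nat.mod_eq_of_lt z0.2] at hz; exact hz)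
      subst this
      exact ⟨s, hR.refl _⟩
    | succ k ih =>
      intro z hz s
      obtain ⟨s1, h1⟩ := dn ⟨((z0 : ℕ) + k) % n, Nat.mod_lt _ hn⟩ z (by
        rw [← hz]
        show (((z0 : ℕ) + k) % n + 1) % n = _
        rw [Nat.mod_add_mod]
        rfl) s
      obtain ⟨s0, h2⟩ := ih ⟨((z0 : ℕ) + k) % n, Nat.mod_lt _ hn⟩ rfl s1
      exact ⟨s0, hR.trans h2 h1⟩
  have key2 : ∀ a : (Σ z, N z), ∃ s0 : N z0, R ⟨z0, s0⟩ a := by
    rintro ⟨z, s⟩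
    refine key ((z : ℕ) + (n - z0)) z ?_ s
    have h1 := z0.2
    have e : (z0 : ℕ) + ((z : ℕ) + (n - z0)) = z + n := by omega
    rw [e, Nat.add_mod_right, Nat.mod_eq_of_lt z.2]
  obtain ⟨s1, h1⟩ := key2 a
  obtain ⟨s2, h2⟩ := key2 b
  exact hR.trans (hR.symm h1) (hR.trans (h0 s1 s2) h2)

end Pool.Agent.Lib.MP_688fd0_co.SQ5.H53.RegC
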