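import Pool.Agent.Lib.MP_688fd0_co.SQ5.NA.Iface

/-!
LOCG (helper53): the local world of a set of middle letters: `e` = the product of the denominators, `u` = the `e`-th root
of `z` in `⟨z⟩`.
-/

set_option autoImplicit false

namespace Pool.Agent.Lib.MP_688fd0_co.SQ5.NA

open Pool.Agent.Lib.MP_688fd0_co.OSF Pool.Agent.Lib.MP_688fd0_co.SQ2 Pool.Agent.Lib.MP_688fd0_co.SQ3
open Pool.Agent.Lib.MP_688fd0_co.SQ4 Pool.Agent.Lib.MP_688fd0_co.SQ5.N

namespace LocGP

/-- A number whose prime factors are larger than `n` is prime to all numbers in `[1, n]`. -/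
theorem cop_of_lt {m n d : ℕ} (hm : m ≠ 0) (h : ∀ p ∈ m.primeFactors, n < p) (hd : 0 < d) (hdn : d ≤ n) :
    m.Coprime d := by
  rw [Nat.coprime_iff_gcd_eq_one]
  by_contra hg
  obtain ⟨p, hp, hpg⟩ := Nat.exists_prime_and_dvd hg
  have h1 : p ∣ m := hpg.trans (Nat.gcd_dvd_left _ _)
  have h2 : p ∣ d := hpg.trans (Nat.gcd_dvd_right _ _)
  have h3 := h p (Nat.mem_primeFactors.2 ⟨hp, h1, hm⟩)
  have h4 := Nat.le_of_dvd hd h2
  omega

end LocGP

open LocGP

/-- LOCG. -/
theorem locG : LocGS := by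
  classical
  intro Q _ B a b eps D z k τ num den H hτ σ hσ hbig
  have hfin := H.fin
  have hz0 : orderOf z ≠ 0 := (orderOf_pos z).ne'
  have hden : ∀ s ∈ σ, 0 < den s := fun s hs => by
    have h1 := H.near s (hσ s hs).1 (hσ s hs).2
    omega
  have hdτ : ∀ s ∈ σ, den s ≤ τ := fun s hs => (H.near s (hσ s hs).1 (hσ s hs).2).2.2.1
  have hcd : ∀ s ∈ σ, (orderOf z).Coprime (den s) := fun s hs =>
    cop_of_lt hz0 (fun p hp => (H.cop p hp).2) (hden s hs) (hdτ s hs)
  have hck : (orderOf z).Coprime k := cop_of_lt hz0 (fun p hp => (H.cop p hp).1) H.kpos le_rfl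
  obtain ⟨e, he⟩ : ∃ e : ℕ, e = ∏ s ∈ σ, den s := ⟨_, rfl⟩
  have hepos : 0 < e := by rw [he]; exact Finset.prod_pos hden
  have hele : e ≤ τ ^ σ.card := by
    rw [he, ← Finset.prod_const]
    exact Finset.prod_le_prod (fun s _ => Nat.zero_le _) hdτ
  have hce : (orderOf z).Coprime e := by
    rw [he]; exact Nat.Coprime.prod_right hcd
  -- the root
  obtain ⟨f, hf⟩ : ∃ f : ℕ, z ^ (f * e) = z := by
    obtain ⟨f, hf⟩ := Nat.exists_mul_mod_eq_of_coprime 1 hce.symm hz0
    refine ⟨f, ?_⟩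
    rw [← pow_mod_orderOf, mul_comm, hf.2, pow_mod_orderOf, pow_one]
  obtain ⟨u, hu⟩ : ∃ u : Q, u = z ^ f := ⟨_, rfl⟩
  have hue : u ^ e = z := by rw [hu, ← pow_mul, hf]
  have huz : u ∈ Subgroup.zpowers z := by rw [hu]; exact Subgroup.npow_mem_zpowers z f
  have hou : orderOf u = orderOf z := by
    apply Nat.dvd_antisymm
    · rw [hu]; exact orderOf_pow_dvd f
    · conv_lhs => rw [← hue]
      exact orderOf_pow_dvd e
  have hdiv : ∀ s ∈ σ, den s ∣ e := fun s hs => by rw [he]; exact Finset.dvd_prod_of_mem den hs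
  have heu : eps u = 1 := by rw [hu, map_pow, H.ez, one_pow]
  refine ⟨u, fun s => num s.1 * (e / den s.1), e, ?_, hue, huz, hele, hepos⟩
  exact
    { fin := H.fin
      kpos := H.kpos
      epos := hepos
      nD := H.nD
      leD := H.leD
      card := H.card
      eu := heu
      ea := H.neg a
      eb := H.neg b
      et := fun s => H.neg s.1
      ia := H.inv a
      ib := H.inv b
      it := fun s => H.inv s.1
      ipos := fun s => by
        have h1 := H.near s.1 (hσ s.1 s.2).1 (hσ s.1 s.2).2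
        exact Nat.mul_pos h1.1 (Nat.div_pos (Nat.le_of_dvd hepos (hdiv s.1 s.2)) (hden s.1 s.2))
      ilt := fun s => by
        have h1 := H.near s.1 (hσ s.1 s.2).1 (hσ s.1 s.2).2
        have h2 : 0 < e / den s.1 := Nat.div_pos (Nat.le_of_dvd hepos (hdiv s.1 s.2)) (hden s.1 s.2)
        calc num s.1 * (e / den s.1) < den s.1 * (e / den s.1) := Nat.mul_lt_mul_of_pos_right h1.2.1 h2
          _ = e := Nat.mul_div_cancel' (hdiv s.1 s.2)
      cen := fun x hx => by
        have h1 : Commute x z := H.cen x hx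
        rw [hu]; exact (h1.pow_right f).eq
      copk := by rw [hou]; exact Nat.Coprime.mul_right hck hce
      big := by
        rw [hou]
        refine lt_of_le_of_lt ?_ hbig
        exact Nat.mul_le_mul_left _ (Nat.pow_le_pow_left hele 3)
      ker := fun x hx => by
        obtain ⟨n, d, hd, h1⟩ := H.ker x hx
        refine ⟨e * n, d, hd, ?_⟩
        rw [zpow_mul, zpow_natCast, hue]; exact h1
      mw := by rw [hue]; exact H.mw
      mp := fun s => by
        obtain ⟨-, -, -, v, hv, hv1, hv2⟩ := H.near s.1 (hσ s.1 s.2).1 (hσ s.1 s.2).2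
        have h1 : u ^ (num s.1 * (e / den s.1)) = v := by
          obtain ⟨g, rfl⟩ := Subgroup.mem_zpowers_iff.1 hv
          have hc : Commute (u ^ (num s.1 * (e / den s.1))) (z ^ g)⁻¹ := by
            rw [hu, ← pow_mul, ← zpow_natCast, ← zpow_neg]
            exact Commute.zpow_zpow_self z _ _
          have h3 : (u ^ (num s.1 * (e / den s.1)) * (z ^ g)⁻¹) ^ den s.1 = 1 := by
            rw [hc.mul_pow, inv_pow, hv1, ← pow_mul, mul_assoc, Nat.div_mul_cancel (hdiv s.1 s.2), mul_comm, pow_mul, hue,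
              mul_inv_cancel]
          have h4 : orderOf (u ^ (num s.1 * (e / den s.1)) * (z ^ g)⁻¹) ∣ orderOf z := by
            have h5 : u ^ (num s.1 * (e / den s.1)) * (z ^ g)⁻¹ ∈ Subgroup.zpowers z :=
              (Subgroup.zpowers z).mul_mem ((Subgroup.zpowers z).pow_mem huz _) ((Subgroup.zpowers z).inv_mem hv)
            exact orderOf_dvd_of_mem_zpowers h5
          have h5 := orderOf_dvd_of_pow_eq_one h3
          have h6 : orderOf (u ^ (num s.1 * (e / den s.1)) * (z ^ g)⁻¹) = 1 := by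
            rw [← Nat.dvd_one, ← (hcd s.1 s.2)]
            exact Nat.dvd_gcd h4 h5
          rw [orderOf_eq_one_iff, mul_inv_eq_one] at h6
          exact h6
        show (u ^ (num s.1 * (e / den s.1)))⁻¹ * _ ∈ D
        rw [h1]; exact hv2
      turn := by
        rw [hu]
        calc B.q a * z ^ f * (B.q a)⁻¹ = (B.q a * z * (B.q a)⁻¹) ^ f := by rw [conj_pow]
          _ = (z ^ f)⁻¹ := by rw [H.turn, inv_pow] }

end Pool.Agent.Lib.MP_688fd0_co.SQ5.NA
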